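import Pool.Agent.W39.LE.Fin1

set_option autoImplicit false

namespace Pool.W39.LE

open Complex BT

theorem normSq_zx (x m : ℝ) : normSq (zx x - (m : ℂ)) = x ^ 2 + |m - 2| ^ 2 := by
  rw [sq_abs, normSq_apply]
  simp [zx]
  ring

theorem normSq_prod (S : Multiset ℝ) (x : ℝ) :
    normSq ((S.map (fun m : ℝ => zx x - (m : ℂ))).prod) =
      ((S.map (fun m => |m - 2|)).map (fun a => x ^ 2 + a ^ 2)).prod := by
  rw [Multiset.map_map]
  induction S using Multiset.induction_on with
  | empty => simp
  | cons m S ih =>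
    rw [Multiset.map_cons, Multiset.prod_cons, map_mul, ih, normSq_zx]
    simp

theorem shift (S : Multiset ℝ) (e : ℝ) :
    (S.map (fun m => |m - 2|)).sum +
        e * (2 * (Multiset.card (S.filter (fun m => 2 ≤ m)) : ℝ) - (Multiset.card S : ℝ)) ≤
      (S.map (fun m => |m - (2 - e)|)).sum ∨ e < 0 := by
  by_cases he : e < 0
  · exact Or.inr he
  left
  push Not at he
  induction S using Multiset.induction_on with
  | empty => simp
  | cons m S ih =>
    by_cases hm : 2 ≤ m
    · rw [Multiset.filter_cons_of_pos _ hm]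
      simp only [Multiset.map_cons, Multiset.sum_cons, Multiset.card_cons]
      push_cast
      have h1 : |m - 2| = m - 2 := abs_of_nonneg (by linarith)
      have h2 : |m - (2 - e)| = m - 2 + e := by rw [abs_of_nonneg (by linarith)]; ring
      rw [h1, h2]
      linarith
    · rw [Multiset.filter_cons_of_neg _ hm]
      simp only [Multiset.map_cons, Multiset.sum_cons, Multiset.card_cons]
      push_cast
      have h2 : |m - 2| - e ≤ |m - (2 - e)| := by
        have := abs_sub_abs_le_abs_sub (m - 2) (-e)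
        rw [abs_neg, abs_of_nonneg he] at this
        have h3 : m - 2 - -e = m - (2 - e) := by ring
        rw [h3] at this
        exact this
      linarith

theorem spec_prod {n : ℕ} {T : SimpleGraph (Fin n)} {t : BT}
    (h : ∀ z : ℂ, ((spec T).map (fun m : ℝ => z - (m : ℂ))).prod = Phi z t) (x : ℝ) :
    (((spec T).map (fun m => |m - 2|)).map (fun a => x ^ 2 + a ^ 2)).prod =
      normSq (Phi (zx x) t) := by
  rw [← normSq_prod, h]

theorem PR_eq (P : List ℝ) (x : ℝ) :
    (((P : Multiset ℝ)).map (fun a => x ^ 2 + a ^ 2)).prod = PR P x := by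
  rw [Multiset.map_coe, Multiset.prod_coe]; rfl

theorem main (n : ℕ) (T : SimpleGraph (Fin n)) (hT : T.IsTree) :
    ((spec (SimpleGraph.pathGraph n)).map (fun m => |m - (2 - 2 / (n : ℝ))|)).sum ≤
      ((spec T).map (fun m => |m - (2 - 2 / (n : ℝ))|)).sum := by
  classical
  obtain ⟨r⟩ := hT.connected.nonempty
  have hn : 1 ≤ n := by have := r.isLt; omega
  have hn0 : (0 : ℝ) < n := by exact_mod_cast hn
  obtain ⟨t, hcard, hdet, f, hf1, hf2, _⟩ := fLINK (Fin n) T r hT
  obtain ⟨hc, hspl⟩ := Pool.W481.LE.t_SPL n T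
  have hsize : t.size = n := by rw [← hcard, Fintype.card_fin]
  have hphi : ∀ z : ℂ, ((spec T).map (fun m : ℝ => z - (m : ℂ))).prod = Phi z t := by
    intro z
    rw [hspl z]
    have := hdet z 0
    simp only [zero_smul, add_zero, zero_mul] at this
    rw [← this]
  have hmat := Pool.W481.LE.t_EIG n t.nu T f hf1 hf2
  obtain ⟨P, Q, g, hPQ, hg, hineq⟩ := OK_all t
  rw [hsize] at hg hineq
  obtain ⟨hlen, hP0, hQ0, hPQg⟩ := hPQ
  -- the path
  have hps := Pool.Agent.W800.LE.pspec n hn
  have hpp : ∀ z : ℂ, ((spec (SimpleGraph.pathGraph n)).map (fun m : ℝ => z - (m : ℂ))).prod =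
      Phi z (pth (n - 1)) := by
    intro z
    rw [hps, Multiset.map_map, Pool.Agent.W800.LE.pphi n z hn]
    rfl
  set ST := (spec T).map (fun m => |m - 2|) with hST
  set SP := (spec (SimpleGraph.pathGraph n)).map (fun m => |m - 2|) with hSP
  have hcP : Multiset.card (spec (SimpleGraph.pathGraph n)) = n := by
    rw [hps]; simp
  have han := Pool.Agent.W346.LE.t_AN (ST + (Q : Multiset ℝ)) (SP + (P : Multiset ℝ))
    (by rw [Multiset.card_add, Multiset.card_add, hST, hSP, Multiset.card_map, Multiset.card_map,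
          hc, hcP, Multiset.coe_card, Multiset.coe_card, hlen])
    (by
      intro a ha
      rcases Multiset.mem_add.mp ha with h | h
      · obtain ⟨m, _, rfl⟩ := Multiset.mem_map.mp h
        exact abs_nonneg _
      · exact hQ0 a (by simpa using h))
    (by
      intro a ha
      rcases Multiset.mem_add.mp ha with h | h
      · obtain ⟨m, _, rfl⟩ := Multiset.mem_map.mp h
        exact abs_nonneg _
      · exact hP0 a (by simpa using h))
    (by
      intro x hx
      rw [Multiset.map_add, Multiset.map_add, Multiset.prod_add, Multiset.prod_add, PR_eq, PR_eq,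
        hST, hSP, ← normSq_prod, ← normSq_prod, hphi, hpp]
      have := hineq x hx
      linarith)
  rw [Multiset.sum_add, Multiset.sum_add, Multiset.sum_coe, Multiset.sum_coe] at han
  -- the shift
  have hsh := shift (spec T) (2 / (n : ℝ))
  rcases hsh with hsh | hsh
  · rw [hc] at hsh
    have hpsh := Pool.Agent.W800.LE.psh n hn
    have hP1 : ((spec (SimpleGraph.pathGraph n)).map (fun m => |m - (2 - 2 / (n : ℝ))|)).sum =
        SP.sum + 2 / (n : ℝ) * (2 * ((n / 2 : ℕ) : ℝ) - n) := by
      rw [hSP, hps, Multiset.map_map, Multiset.map_map]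
      exact hpsh
    rw [hP1]
    have hk : ((t.nu : ℕ) : ℝ) ≤ (Multiset.card ((spec T).filter (fun m => 2 ≤ m)) : ℝ) := by
      exact_mod_cast hmat
    have he : 0 < 2 / (n : ℝ) := by positivity
    have h1 : 2 / (n : ℝ) * (2 * (t.nu : ℝ) - n) ≤
        2 / (n : ℝ) * (2 * (Multiset.card ((spec T).filter (fun m => 2 ≤ m)) : ℝ) - n) :=
      mul_le_mul_of_nonneg_left (by linarith) he.le
    have h2 : 2 / (n : ℝ) * (2 * ((n / 2 : ℕ) : ℝ) - n) ≤ g + 2 / (n : ℝ) * (2 * (t.nu : ℝ) - n) := by
      have h3 : g = 2 / (n : ℝ) * (n * g / 2) := by field_simp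
      rw [h3, ← mul_add]
      apply mul_le_mul_of_nonneg_left _ he.le
      linarith
    have hsh' : ST.sum + 2 / (n : ℝ) * (2 * (Multiset.card ((spec T).filter (fun m => 2 ≤ m)) : ℝ) - n) ≤
      ((spec T).map (fun m => |m - (2 - 2 / (n : ℝ))|)).sum := hsh
    linarith
  · exfalso
    have : 0 < 2 / (n : ℝ) := by positivity
    linarith

end Pool.W39.LE
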