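import Mathlib

/-!
Definitions for the proof that the path minimises the Laplacian energy among trees (S07851).
Rooted trees are encoded by `BT`: `leaf` is one vertex, `join s t` is `s` and `t` with an edge
between the two roots, rooted at the root of `s`.
-/

set_option autoImplicit false

namespace Pool.W39.LE

open Complex

inductive BT : Type
  | leaf : BT
  | join : BT → BT → BT
  deriving DecidableEq

namespace BT

/-- number of vertices -/
def size : BT → ℕ
  | leaf => 1
  | join s t => size s + size t

/-- some maximum matching avoids the root -/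
def av : BT → Bool
  | leaf => true
  | join s t => av s && !av t

/-- matching number -/
def nu : BT → ℕ
  | leaf => 0
  | join s t => nu s + nu t + (if av s && av t then 1 else 0)

/-- path with `k + 1` vertices, rooted at an end -/
def pth : ℕ → BT
  | 0 => leaf
  | k + 1 => join leaf (pth k)

/-- `(Phi, Psi)`: `Phi = det (z - L)`, `Psi` = the minor of `z - L` without the root -/
noncomputable def val (z : ℂ) : BT → ℂ × ℂ
  | leaf => (z, 1)
  | join s t =>
      ((val z s).1 * (val z t).1 - (val z s).2 * (val z t).1 - (val z s).1 * (val z t).2,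
        (val z s).2 * ((val z t).1 - (val z t).2))

noncomputable def Phi (z : ℂ) (t : BT) : ℂ := (val z t).1
noncomputable def Psi (z : ℂ) (t : BT) : ℂ := (val z t).2

/-- rooted paths -/
def isp : BT → Bool
  | leaf => true
  | join leaf t => isp t
  | join (join _ _) _ => false

/-- number of children of the root which are rooted paths with a number of vertices in `C` -/
def cnt (C : ℕ → Bool) : BT → ℕ
  | leaf => 0
  | join s t => cnt C s + (if isp t && C t.size then 1 else 0)

/-- no vertex has two children which are rooted paths with a number of vertices in `C` -/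
def good (C : ℕ → Bool) : BT → Bool
  | leaf => true
  | join s t => good C s && good C t && decide (cnt C (join s t) ≤ 1)

end BT

open BT

/-- the point `2 + i x` -/
noncomputable def zx (x : ℝ) : ℂ := 2 + (x : ℂ) * I

/-- region of the context variable of a vertex with `D` outer neighbours -/
def Adm (x D : ℝ) (h : ℂ) : Prop := x * normSq (h + D) ≤ D * h.im

def WW (x D e : ℝ) : ℝ := x * (4 - 3 * D + D ^ 2) + x * (x + D * e) ^ 2 + 2 * D * e

/-- the polynomial condition for one merging step (`d` = delta, `e` = eta, `R` = lower bound) -/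
def StepOK (x D d e R : ℝ) : Prop :=
  ∃ M : ℝ, 0 ≤ M ∧ R ≤ M ^ 2 ∧
    M * (D * ((4 + x ^ 2) * d)) ≤
      (1 - R) * WW x D e +
        x * D * d * (2 * (4 + x ^ 2) - 4 * D + 2 * D * e * x + D * ((4 + x ^ 2) * d))

noncomputable def xs (s : ℝ) : ℝ := (1 - s ^ 2) / s
/-- `V_k(x)`, `x = xs s`: `V_0 = 1`, `V_1 = x`, `V_(k+2) = x V_(k+1) + V_k` -/
noncomputable def Vs (s : ℝ) (k : ℕ) : ℝ := (1 - (-s ^ 2) ^ (k + 1)) / (s ^ k * (1 + s ^ 2))
noncomputable def dls (s A B : ℝ) : ℝ :=
  s ^ 2 * ((1 - A) * (1 - B)) / ((1 + s ^ 2) * (1 + s ^ 2 * (A * B)))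
noncomputable def ets (s A B : ℝ) : ℝ := s * (1 - A * B) / (1 + s ^ 2 * (A * B))
noncomputable def oms (s A B C : ℝ) : ℝ :=
  s ^ 3 * ((1 - A) * (1 - B) * (1 - C)) / ((1 + s ^ 2) ^ 2 * (1 + s ^ 2 * (A * B * C)))

/-- `prod (x^2 + p^2)` -/
noncomputable def PR (P : List ℝ) (x : ℝ) : ℝ := (P.map (fun p => x ^ 2 + p ^ 2)).prod

/-- a pair of lists with gain at least `g` -/
def PQ (P Q : List ℝ) (g : ℝ) : Prop :=
  P.length = Q.length ∧ (∀ p ∈ P, 0 ≤ p) ∧ (∀ q ∈ Q, 0 ≤ q) ∧ g ≤ P.sum - Q.sum

/-- gains (in thousandths) of the merging of arms `a`, `b` at a vertex with one outer neighbour -/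
def d1 (a b : ℕ) : ℕ :=
  if a % 2 = 0 ∨ b % 2 = 0 then 89 else if a = 1 ∧ b = 1 then 110 else if a = 1 ∨ b = 1 then 79
    else 64

/-- the same with at least two outer neighbours -/
def d2 (a b : ℕ) : ℕ :=
  if a % 2 = 0 ∨ b % 2 = 0 then 255 else if a = 1 ∧ b = 1 then 235 else if a = 1 ∨ b = 1 then 212
    else 180

/-- gains (in thousandths) of replacing the spider with legs `a b c` by a path -/
def Lt (a b c : ℕ) : ℕ :=
  let ev := (a + 1) % 2 + (b + 1) % 2 + (c + 1) % 2
  let on := (if a = 1 then 1 else 0) + (if b = 1 then 1 else 0) + (if c = 1 then 1 else 0)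
  if ev = 0 then
    if on = 3 then 1000
    else if on = 2 then
      (if a = 3 ∨ b = 3 ∨ c = 3 then 950 else if a = 5 ∨ b = 5 ∨ c = 5 then 860 else 670)
    else if on = 1 then (if a ≤ 3 ∧ b ≤ 3 ∧ c ≤ 3 then 785 else 500)
    else (if a ≤ 3 ∧ b ≤ 3 ∧ c ≤ 3 then 670 else 390)
  else if ev = 1 then
    if on = 2 then (if a = 2 ∨ b = 2 ∨ c = 2 then 475 else 510)
    else if on = 1 then 400 else 340
  else 300

/-- total gain (thousandths) of replacing the tree by a path; `b = false`: the root has one outer
neighbour, `b = true`: at least two outer neighbours -/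
def G : BT → Bool → ℕ
  | leaf, _ => 0
  | join s t, b => G s true + G t false +
      (if s = leaf then 0 else if b then d2 (s.size - 1) t.size else d1 (s.size - 1) t.size)

/-- same size, matching number and `Phi` -/
def Eqv (s t : BT) : Prop := s.size = t.size ∧ s.nu = t.nu ∧ ∀ z : ℂ, Phi z s = Phi z t

/-- same size, matching number, `av`, `Phi` and `Psi` -/
def SEqv (s t : BT) : Prop :=
  s.size = t.size ∧ s.nu = t.nu ∧ s.av = t.av ∧ ∀ z : ℂ, val z s = val z t

end Pool.W39.LE
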