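import Pool.Agent.W39.LE.L3
import Pool.Agent.W346.LE.An
import Pool.Agent.W346.LE.Disc
import Pool.Agent.W856.LE.Chain
import Pool.Agent.W800.LE.Form
import Pool.Agent.W800.LE.Path1
import Pool.Agent.W800.LE.Path2
import Pool.Agent.W52.LE.RR
import Pool.Agent.W52.LE.Cut
import Pool.Agent.W73.LE.Pot
import Pool.Agent.W214.LE.Join
import Pool.Agent.W481.LE.Spl

set_option autoImplicit false

namespace Pool.W39.LE

open Complex BT

theorem fCH : S_CH :=
  Pool.W856.LE.ch PC.step1 PC.step2 Pool.Agent.W346.LE.t_DISC Pool.Agent.W346.LE.t_ADD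
    Pool.Agent.W346.LE.t_CTX Pool.Agent.W800.LE.mrg

theorem fTB : S_TB :=
  Pool.W856.LE.tb fCH Pool.Agent.W346.LE.t_ADD Pool.Agent.W346.LE.t_CTX Pool.Agent.W800.LE.spi
    PC.last

theorem fLINK : S_LINK := Pool.Agent.W214.LE.link Pool.Agent.W52.LE.cut Pool.Agent.W214.LE.sjoin

/-- the estimate for one tree -/
def OK (t : BT) : Prop :=
  ∃ (P Q : List ℝ) (g : ℝ), PQ P Q g ∧
    4000 * ((t.size / 2 : ℕ) : ℝ) ≤ (t.size : ℝ) * (1000 * g) + 4000 * (nu t : ℝ) ∧
    ∀ x : ℝ, 0 < x →
      PR P x * normSq (Phi (zx x) (pth (t.size - 1))) ≤ PR Q x * normSq (Phi (zx x) t)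

theorem OK_of_eqv {s t : BT} (h : Eqv s t) (ht : OK t) : OK s := by
  obtain ⟨P, Q, g, h1, h2, h3⟩ := ht
  obtain ⟨e1, e2, e3⟩ := h
  refine ⟨P, Q, g, h1, by rw [e1, e2]; exact h2, fun x hx => ?_⟩
  rw [e1, e3]
  exact h3 x hx

theorem OK_path (t : BT) (hn : t.size / 2 ≤ nu t)
    (h : ∀ x : ℝ, 0 < x → Phi (zx x) (pth (t.size - 1)) = Phi (zx x) t) : OK t := by
  refine ⟨[], [], 0, ⟨rfl, by simp, by simp, by simp⟩, ?_, fun x hx => ?_⟩
  · have : ((t.size / 2 : ℕ) : ℝ) ≤ (nu t : ℝ) := by exact_mod_cast hn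
    linarith
  · rw [h x hx]

theorem OK_pth (k : ℕ) : OK (pth k) := by
  apply OK_path
  · rw [Pool.Agent.W73.LE.size_pth]; exact Pool.Agent.W73.LE.nu_pth k
  · intro x _
    rw [Pool.Agent.W73.LE.size_pth]; rfl

theorem OK_small (a b : ℕ) : OK (join (join leaf (pth a)) (pth b)) := by
  apply OK_path
  · have h := Pool.Agent.W73.LE.nu_T leaf a b
    have hs : (join (join leaf (pth a)) (pth b)).size = a + b + 3 := by
      show 1 + (pth a).size + (pth b).size = _
      rw [Pool.Agent.W73.LE.size_pth, Pool.Agent.W73.LE.size_pth]; omega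
    rw [hs]
    refine le_trans ?_ h
    rcases Nat.mod_two_eq_zero_or_one a with ea | oa <;>
      rcases Nat.mod_two_eq_zero_or_one b with eb | ob <;>
      simp [av, nu, *] <;> omega
  · intro x hx
    have hs : (join (join leaf (pth a)) (pth b)).size = a + b + 3 := by
      show 1 + (pth a).size + (pth b).size = _
      rw [Pool.Agent.W73.LE.size_pth, Pool.Agent.W73.LE.size_pth]; omega
    rw [hs]
    obtain ⟨s, hs0, hs1, rfl⟩ := Pool.W856.LE.exists_xs x hx
    obtain ⟨_, h2, _, h4, _⟩ := Pool.Agent.W800.LE.mrg s (a + 1) b hs0 hs1 (by omega)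
    have e : a + b + 3 - 1 = a + 1 + b + 1 := by omega
    rw [e, h2]
    exact h4.symm

theorem OK_main {X : BT} {a b : ℕ} (hX : 2 ≤ X.size)
    (h : 4000 * ((X.size + a + b + 2) / 2) ≤
      (X.size + a + b + 2) * (G X true + Lt (a + 1) (b + 1) (X.size - 1)) +
      4000 * nu (join (join X (pth a)) (pth b))) : OK (join (join X (pth a)) (pth b)) := by
  obtain ⟨P, Q, h1, h2⟩ := fTB X a b hX
  have hs : (join (join X (pth a)) (pth b)).size = X.size + a + b + 2 := by
    show X.size + (pth a).size + (pth b).size = _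
    rw [Pool.Agent.W73.LE.size_pth, Pool.Agent.W73.LE.size_pth]; omega
  refine ⟨P, Q, _, h1, ?_, fun x hx => ?_⟩
  · rw [hs]
    have h' : ((4000 * ((X.size + a + b + 2) / 2) : ℕ) : ℝ) ≤
      (((X.size + a + b + 2) * (G X true + Lt (a + 1) (b + 1) (X.size - 1)) +
      4000 * nu (join (join X (pth a)) (pth b)) : ℕ) : ℝ) := by exact_mod_cast h
    push_cast at h' ⊢
    linarith
  · rw [hs]
    exact h2 x hx

theorem OK_star : OK (join (join (join (join leaf leaf) leaf) leaf) leaf) := by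
  obtain ⟨P, Q, h1, h2⟩ := Pool.Agent.W800.LE.k14
  refine ⟨P, Q, _, h1, ?_, fun x hx => ?_⟩
  · norm_num [size, nu, av]
  · exact h2 x hx

/-- trees with at most five vertices -/
theorem OK_le5 {X : BT} {a b : ℕ} (hX : 2 ≤ X.size) (h5 : X.size + a + b + 2 ≤ 5) :
    OK (join (join X (pth a)) (pth b)) := by
  have hX3 : X.size = 2 ∨ X.size = 3 := by omega
  rcases hX3 with h2 | h3
  · have e := Pool.Agent.W73.LE.size_two h2
    subst e
    have hab : (a = 0 ∧ b = 0) ∨ (a = 1 ∧ b = 0) ∨ (a = 0 ∧ b = 1) := by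
      rw [h2] at h5; omega
    rcases hab with ⟨rfl, rfl⟩ | ⟨rfl, rfl⟩ | ⟨rfl, rfl⟩ <;>
    · apply OK_main (by decide)
      decide
  · have hab : a = 0 ∧ b = 0 := by omega
    obtain ⟨rfl, rfl⟩ := hab
    match X, h3 with
    | join s t, h3 =>
      have h3' : s.size + t.size = 3 := h3
      have hs := Pool.Agent.W73.LE.size_pos s
      have ht := Pool.Agent.W73.LE.size_pos t
      have hst : (s.size = 1 ∧ t.size = 2) ∨ (s.size = 2 ∧ t.size = 1) := by omega
      rcases hst with ⟨h1, h2⟩ | ⟨h1, h2⟩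
      · have e1 := Pool.Agent.W73.LE.size_one h1
        have e2 := Pool.Agent.W73.LE.size_two h2
        subst e1 e2
        apply OK_main (by decide)
        decide
      · have e1 := Pool.Agent.W73.LE.size_two h1
        have e2 := Pool.Agent.W73.LE.size_one h2
        subst e1 e2
        exact OK_star

theorem OK_all (t : BT) : OK t := by
  classical
  -- the odd case
  have key : ∀ t' : BT, good (fun k => decide (k % 2 = 1)) t' = false → OK t' := by
    intro t' h
    obtain ⟨X, a, b, ha, hb, he⟩ := Pool.Agent.W52.LE.rr _ t' h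
    refine OK_of_eqv he ?_
    have ha' : (a + 1) % 2 = 1 := by simpa using ha
    have hb' : (b + 1) % 2 = 1 := by simpa using hb
    have ea : a % 2 = 0 := by omega
    have eb : b % 2 = 0 := by omega
    rcases Nat.lt_or_ge X.size 2 with h1 | h2
    · have hX : X = leaf :=
        Pool.Agent.W73.LE.size_one (by have := Pool.Agent.W73.LE.size_pos X; omega)
      subst hX
      exact OK_small a b
    rcases Nat.lt_or_ge (X.size + a + b + 2) 6 with h5 | h6
    · exact OK_le5 h2 (by omega)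
    · exact OK_main h2 (Pool.Agent.W73.LE.potA X a b _ ea eb h2 rfl h6)
  by_cases hex : ∃ t' : BT, Eqv t t' ∧ good (fun k => decide (k % 2 = 1)) t' = false
  · obtain ⟨t', h1, h2⟩ := hex
    exact OK_of_eqv h1 (key t' h2)
  have hall : ∀ t' : BT, Eqv t t' → good (fun k => decide (k % 2 = 1)) t' = true := by
    intro t' h
    by_contra hc
    exact hex ⟨t', h, by simpa using hc⟩
  cases hg : good (fun _ => true) t with
  | true =>
    rw [Pool.Agent.W52.LE.rp t hg]
    exact OK_pth _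
  | false =>
    obtain ⟨X, a, b, _, _, he⟩ := Pool.Agent.W52.LE.rr _ t hg
    refine OK_of_eqv he ?_
    rcases Nat.lt_or_ge X.size 2 with h1 | h2
    · have hX : X = leaf :=
        Pool.Agent.W73.LE.size_one (by have := Pool.Agent.W73.LE.size_pos X; omega)
      subst hX
      exact OK_small a b
    rcases Nat.lt_or_ge (X.size + a + b + 2) 6 with h5 | h6
    · exact OK_le5 h2 (by omega)
    · exact OK_main h2 (Pool.Agent.W73.LE.potB X a b _ (hall _ he) h2 rfl h6)

end Pool.W39.LE
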