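import Pool.Agent.W39.LE.S3

set_option autoImplicit false

namespace Pool.W39.LE.PC

open Pool.W39.LE Rg

theorem cov5 : Cov [(0, 1, 4), (1, 2, 4), (2, 3, 4), (3, 4, 4)] := by
  intro y h0 h1
  rcases lt_or_ge (4 * y) 1 with h | h
  · exact ⟨(0, 1, 4), by simp, by norm_num, by norm_num; linarith, by push_cast; linarith⟩
  rcases lt_or_ge (4 * y) 2 with h' | h'
  · exact ⟨(1, 2, 4), by simp, by norm_num, by push_cast; linarith, by push_cast; linarith⟩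
  rcases lt_or_ge (4 * y) 3 with h'' | h''
  · exact ⟨(2, 3, 4), by simp, by norm_num, by push_cast; linarith, by push_cast; linarith⟩
  · exact ⟨(3, 4, 4), by simp, by norm_num, by push_cast; linarith, by push_cast; linarith⟩

def fc1 (k : ℤ) : R1 := [1000000, -2000000 + k * k, 1000000]

def pw1 (l : R1) : ℕ → R1
  | 0 => [1]
  | n + 1 => lmul l (pw1 l n)

section
variable {R : Type} [Rg R]

def Lu (y N K : R) : R :=
  add (mul (mul (add (ofInt 1) y) (add (ofInt 1) y)) K) (mul (mul (sb (ofInt 1) y) y) N)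

def LL (y N K TN TM : R) : R :=
  sb (mul TM (add (mul (Lu y N K) (Lu y N K)) (mul (ofInt 4) (mul (mul y (mul y y)) (mul N N)))))
    (mul TN (mul (mul (mul (add (ofInt 1) y) (add (ofInt 1) y))
      (mul (add (ofInt 1) y) (add (ofInt 1) y))) (mul K K)))

theorem LL_hom {φ : R → ℝ} (h : Hom φ) (y N K TN TM : R) :
    φ (LL y N K TN TM) = LL (φ y) (φ N) (φ K) (φ TN) (φ TM) := by
  have e1 : ∀ a b : ℝ, Rg.add a b = a + b := fun _ _ => rfl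
  have e2 : ∀ a b : ℝ, Rg.mul a b = a * b := fun _ _ => rfl
  have e3 : ∀ n : ℤ, (Rg.ofInt n : ℝ) = (n : ℝ) := fun _ => rfl
  simp only [LL, Lu, sb, h.add, h.mul, h.ofInt, e1, e2, e3]

end

/-- evaluation -/
noncomputable def e1 (y : ℝ) : R1 → ℝ := lev (fun n : ℤ => (n : ℝ)) y

theorem h1 (y : ℝ) : Hom (e1 y) := hom_lev hom_int y

theorem e1_mul (y : ℝ) (a b : R1) : e1 y (lmul a b) = e1 y a * e1 y b := (h1 y).mul a b

theorem e1_pw (y : ℝ) (l : R1) (n : ℕ) : e1 y (pw1 l n) = e1 y l ^ n := by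
  induction n with
  | zero => simp [pw1, e1, lev]
  | succ n ih => rw [pw1, e1_mul, ih, pow_succ']

theorem e1_fc {s : ℝ} (hs : 0 < s) (k : ℤ) : e1 (s ^ 2) (fc1 k) = qv s (k / 1000) := by
  simp only [fc1, e1, lev, qv, xs]
  push_cast
  field_simp
  ring

/-- the function of `omega` -/
noncomputable def fo (s w : ℝ) : ℝ := (1 + xs s * w) ^ 2 + 4 * w ^ 2

theorem fo_mono {s w w' : ℝ} (hs : 0 < s) (hs1 : s < 1) (h0 : 0 ≤ w) (h : w ≤ w') :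
    fo s w ≤ fo s w' := by
  have hx := xs_pos hs hs1
  unfold fo
  have h2 : xs s * w ≤ xs s * w' := mul_le_mul_of_nonneg_left h hx.le
  have h3 : 0 ≤ xs s * w := by positivity
  nlinarith

theorem last_core (s N K TN TM : ℝ) (hs : 0 < s) (hK : 0 < K)
    (hF : 0 ≤ LL (s ^ 2) N K TN TM) :
    TN ≤ TM * fo s (s ^ 3 * N / (K * (1 + s ^ 2) ^ 2)) := by
  have e1 : ∀ a b : ℝ, Rg.add a b = a + b := fun _ _ => rfl
  have e2 : ∀ a b : ℝ, Rg.mul a b = a * b := fun _ _ => rfl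
  have e3 : ∀ n : ℤ, (Rg.ofInt n : ℝ) = (n : ℝ) := fun _ => rfl
  have hZ : 0 < K ^ 2 * (1 + s ^ 2) ^ 4 := by positivity
  rw [← sub_nonneg]
  refine nonneg_of_mul_nonneg_right ?_ hZ
  refine le_of_le_of_eq hF ?_
  simp only [LL, Lu, sb, e1, e2, e3, fo, xs]
  push_cast
  field_simp
  ring

/-- bound for `oms` -/
theorem oms_le (s A B C N K : ℝ) (hs : 0 < s) (hK : 0 < K)
    (hD : 0 < 1 + s ^ 2 * (A * B * C))
    (h : N * (1 + s ^ 2 * (A * B * C)) ≤ K * ((1 - A) * (1 - B) * (1 - C))) :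
    s ^ 3 * N / (K * (1 + s ^ 2) ^ 2) ≤ oms s A B C := by
  unfold oms
  rw [div_le_div_iff₀ (by positivity) (by positivity)]
  have h3 : 0 < s ^ 3 * (1 + s ^ 2) ^ 2 := by positivity
  nlinarith [mul_le_mul_of_nonneg_left h h3.le]

theorem okL111 : okY [(0, 1, 2), (1, 2, 2)] (LL ([0, 1] : R1) (pw1 [1, 1] 3) [1, 0, 0, 0, -1] (lmul (lmul (fc1 1000) (fc1 1000)) (fc1 2000)) (lmul (lmul (fc1 0) (fc1 1415)) (fc1 1415))) = true := by
  decide +kernel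

theorem l111 (s : ℝ) (hs : 0 < s) (hs1 : s < 1) :
    (qv s (1000 / 1000) * qv s (1000 / 1000) * qv s (2000 / 1000)) ≤ (qv s (0 / 1000) * qv s (1415 / 1000) * qv s (1415 / 1000)) * fo s (s ^ 3 * (1 + s ^ 2) ^ 3 / ((1 - (s ^ 2) ^ 4) * (1 + s ^ 2) ^ 2)) := by
  have hy0 : (0 : ℝ) < s ^ 2 := by positivity
  have hy1 : s ^ 2 < 1 := by nlinarith
  have hyk : ∀ k : ℕ, (s ^ 2) ^ (k + 1) < 1 := fun k => pow_lt_one₀ hy0.le hy1 (by omega)
  have hp := okY_spec okL111 hy0 hy1 (cov1 (s ^ 2) hy0 hy1)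
  change 0 ≤ e1 (s ^ 2) _ at hp
  rw [LL_hom (h1 (s ^ 2))] at hp
  have a0 : e1 (s ^ 2) ([0, 1] : R1) = s ^ 2 := by simp [e1, lev]
  have a1 : e1 (s ^ 2) (pw1 [1, 1] 3) = (1 + s ^ 2) ^ 3 := by
    try simp only [e1_mul, e1_pw]
    simp only [e1, lev]; push_cast; ring1
  have a2 : e1 (s ^ 2) [1, 0, 0, 0, -1] = (1 - (s ^ 2) ^ 4) := by
    simp only [e1, lev]; push_cast; ring1
  have a3 : e1 (s ^ 2) (lmul (lmul (fc1 1000) (fc1 1000)) (fc1 2000)) = (qv s (1000 / 1000) * qv s (1000 / 1000) * qv s (2000 / 1000)) := by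
    simp only [e1_mul, e1_fc hs]; push_cast; try ring1
  have a4 : e1 (s ^ 2) (lmul (lmul (fc1 0) (fc1 1415)) (fc1 1415)) = (qv s (0 / 1000) * qv s (1415 / 1000) * qv s (1415 / 1000)) := by
    simp only [e1_mul, e1_fc hs]; push_cast; try ring1
  simp only [a0, a1, a2, a3, a4] at hp
  refine last_core s _ _ _ _ hs ?_ hp
  have b3 := hyk 2
  have b4 := hyk 3
  have b8 := hyk 7
  have b10 := hyk 9
  have c5 : 0 < (s ^ 2) ^ 5 := by positivity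
  have c7 : 0 < (s ^ 2) ^ 7 := by positivity
  norm_num at b3 b4 b8 b10 ⊢
  try linarith

theorem okL113 : okY [(0, 1, 2), (1, 2, 2)] (LL ([0, 1] : R1) (pw1 [1, 1] 2) [1, 0, 0, -1] (lmul (fc1 530) (fc1 2220)) (lmul (fc1 0) (fc1 1800))) = true := by
  decide +kernel

theorem l113 (s : ℝ) (hs : 0 < s) (hs1 : s < 1) :
    (qv s (530 / 1000) * qv s (2220 / 1000)) ≤ (qv s (0 / 1000) * qv s (1800 / 1000)) * fo s (s ^ 3 * (1 + s ^ 2) ^ 2 / ((1 - (s ^ 2) ^ 3) * (1 + s ^ 2) ^ 2)) := by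
  have hy0 : (0 : ℝ) < s ^ 2 := by positivity
  have hy1 : s ^ 2 < 1 := by nlinarith
  have hyk : ∀ k : ℕ, (s ^ 2) ^ (k + 1) < 1 := fun k => pow_lt_one₀ hy0.le hy1 (by omega)
  have hp := okY_spec okL113 hy0 hy1 (cov1 (s ^ 2) hy0 hy1)
  change 0 ≤ e1 (s ^ 2) _ at hp
  rw [LL_hom (h1 (s ^ 2))] at hp
  have a0 : e1 (s ^ 2) ([0, 1] : R1) = s ^ 2 := by simp [e1, lev]
  have a1 : e1 (s ^ 2) (pw1 [1, 1] 2) = (1 + s ^ 2) ^ 2 := by
    try simp only [e1_mul, e1_pw]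
    simp only [e1, lev]; push_cast; ring1
  have a2 : e1 (s ^ 2) [1, 0, 0, -1] = (1 - (s ^ 2) ^ 3) := by
    simp only [e1, lev]; push_cast; ring1
  have a3 : e1 (s ^ 2) (lmul (fc1 530) (fc1 2220)) = (qv s (530 / 1000) * qv s (2220 / 1000)) := by
    simp only [e1_mul, e1_fc hs]; push_cast; try ring1
  have a4 : e1 (s ^ 2) (lmul (fc1 0) (fc1 1800)) = (qv s (0 / 1000) * qv s (1800 / 1000)) := by
    simp only [e1_mul, e1_fc hs]; push_cast; try ring1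
  simp only [a0, a1, a2, a3, a4] at hp
  refine last_core s _ _ _ _ hs ?_ hp
  have b3 := hyk 2
  have b4 := hyk 3
  have b8 := hyk 7
  have b10 := hyk 9
  have c5 : 0 < (s ^ 2) ^ 5 := by positivity
  have c7 : 0 < (s ^ 2) ^ 7 := by positivity
  norm_num at b3 b4 b8 b10 ⊢
  try linarith

theorem okL115 : okY [(0, 1, 2), (1, 2, 2)] (LL ([0, 1] : R1) (lmul (pw1 [1, 1] 2) [1, 0, 0, 0, 0, 1]) [1, 0, 0, 0, 0, 0, 0, 0, -1] (lmul (fc1 2070) (fc1 375)) (lmul (fc1 0) (fc1 1585))) = true := by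
  decide +kernel

theorem l115 (s : ℝ) (hs : 0 < s) (hs1 : s < 1) :
    (qv s (2070 / 1000) * qv s (375 / 1000)) ≤ (qv s (0 / 1000) * qv s (1585 / 1000)) * fo s (s ^ 3 * ((1 + s ^ 2) ^ 2 * (1 + (s ^ 2) ^ 5)) / ((1 - (s ^ 2) ^ 8) * (1 + s ^ 2) ^ 2)) := by
  have hy0 : (0 : ℝ) < s ^ 2 := by positivity
  have hy1 : s ^ 2 < 1 := by nlinarith
  have hyk : ∀ k : ℕ, (s ^ 2) ^ (k + 1) < 1 := fun k => pow_lt_one₀ hy0.le hy1 (by omega)
  have hp := okY_spec okL115 hy0 hy1 (cov1 (s ^ 2) hy0 hy1)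
  change 0 ≤ e1 (s ^ 2) _ at hp
  rw [LL_hom (h1 (s ^ 2))] at hp
  have a0 : e1 (s ^ 2) ([0, 1] : R1) = s ^ 2 := by simp [e1, lev]
  have a1 : e1 (s ^ 2) (lmul (pw1 [1, 1] 2) [1, 0, 0, 0, 0, 1]) = ((1 + s ^ 2) ^ 2 * (1 + (s ^ 2) ^ 5)) := by
    try simp only [e1_mul, e1_pw]
    simp only [e1, lev]; push_cast; ring1
  have a2 : e1 (s ^ 2) [1, 0, 0, 0, 0, 0, 0, 0, -1] = (1 - (s ^ 2) ^ 8) := by
    simp only [e1, lev]; push_cast; ring1
  have a3 : e1 (s ^ 2) (lmul (fc1 2070) (fc1 375)) = (qv s (2070 / 1000) * qv s (375 / 1000)) := by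
    simp only [e1_mul, e1_fc hs]; push_cast; try ring1
  have a4 : e1 (s ^ 2) (lmul (fc1 0) (fc1 1585)) = (qv s (0 / 1000) * qv s (1585 / 1000)) := by
    simp only [e1_mul, e1_fc hs]; push_cast; try ring1
  simp only [a0, a1, a2, a3, a4] at hp
  refine last_core s _ _ _ _ hs ?_ hp
  have b3 := hyk 2
  have b4 := hyk 3
  have b8 := hyk 7
  have b10 := hyk 9
  have c5 : 0 < (s ^ 2) ^ 5 := by positivity
  have c7 : 0 < (s ^ 2) ^ 7 := by positivity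
  norm_num at b3 b4 b8 b10 ⊢
  try linarith

theorem okL11o : okY [(0, 1, 2), (1, 2, 2)] (LL ([0, 1] : R1) (pw1 [1, 1] 2) [1] (lmul (fc1 675) (fc1 2200)) (lmul (fc1 1767) (fc1 437))) = true := by
  decide +kernel

theorem l11o (s : ℝ) (hs : 0 < s) (hs1 : s < 1) :
    (qv s (675 / 1000) * qv s (2200 / 1000)) ≤ (qv s (1767 / 1000) * qv s (437 / 1000)) * fo s (s ^ 3 * (1 + s ^ 2) ^ 2 / (1 * (1 + s ^ 2) ^ 2)) := by
  have hy0 : (0 : ℝ) < s ^ 2 := by positivity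
  have hy1 : s ^ 2 < 1 := by nlinarith
  have hyk : ∀ k : ℕ, (s ^ 2) ^ (k + 1) < 1 := fun k => pow_lt_one₀ hy0.le hy1 (by omega)
  have hp := okY_spec okL11o hy0 hy1 (cov1 (s ^ 2) hy0 hy1)
  change 0 ≤ e1 (s ^ 2) _ at hp
  rw [LL_hom (h1 (s ^ 2))] at hp
  have a0 : e1 (s ^ 2) ([0, 1] : R1) = s ^ 2 := by simp [e1, lev]
  have a1 : e1 (s ^ 2) (pw1 [1, 1] 2) = (1 + s ^ 2) ^ 2 := by
    try simp only [e1_mul, e1_pw]
    simp only [e1, lev]; push_cast; ring1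
  have a2 : e1 (s ^ 2) [1] = 1 := by
    simp only [e1, lev]; push_cast; ring1
  have a3 : e1 (s ^ 2) (lmul (fc1 675) (fc1 2200)) = (qv s (675 / 1000) * qv s (2200 / 1000)) := by
    simp only [e1_mul, e1_fc hs]; push_cast; try ring1
  have a4 : e1 (s ^ 2) (lmul (fc1 1767) (fc1 437)) = (qv s (1767 / 1000) * qv s (437 / 1000)) := by
    simp only [e1_mul, e1_fc hs]; push_cast; try ring1
  simp only [a0, a1, a2, a3, a4] at hp
  refine last_core s _ _ _ _ hs ?_ hp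
  have b3 := hyk 2
  have b4 := hyk 3
  have b8 := hyk 7
  have b10 := hyk 9
  have c5 : 0 < (s ^ 2) ^ 5 := by positivity
  have c7 : 0 < (s ^ 2) ^ 7 := by positivity
  norm_num at b3 b4 b8 b10 ⊢
  try linarith

theorem okL112 : okY [(0, 1, 4), (1, 2, 4), (1, 2, 2)] (LL ([0, 1] : R1) (lmul (pw1 [1, 1] 2) [1, 0, -1]) [1, 0, 0, 0, 0, 1] (lmul (fc1 2018) (fc1 258)) (lmul (fc1 370) (fc1 1430))) = true := by
  decide +kernel

theorem l112 (s : ℝ) (hs : 0 < s) (hs1 : s < 1) :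
    (qv s (2018 / 1000) * qv s (258 / 1000)) ≤ (qv s (370 / 1000) * qv s (1430 / 1000)) * fo s (s ^ 3 * ((1 + s ^ 2) ^ 2 * (1 - (s ^ 2) ^ 2)) / ((1 + (s ^ 2) ^ 5) * (1 + s ^ 2) ^ 2)) := by
  have hy0 : (0 : ℝ) < s ^ 2 := by positivity
  have hy1 : s ^ 2 < 1 := by nlinarith
  have hyk : ∀ k : ℕ, (s ^ 2) ^ (k + 1) < 1 := fun k => pow_lt_one₀ hy0.le hy1 (by omega)
  have hp := okY_spec okL112 hy0 hy1 (cov2 (s ^ 2) hy0 hy1)
  change 0 ≤ e1 (s ^ 2) _ at hp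
  rw [LL_hom (h1 (s ^ 2))] at hp
  have a0 : e1 (s ^ 2) ([0, 1] : R1) = s ^ 2 := by simp [e1, lev]
  have a1 : e1 (s ^ 2) (lmul (pw1 [1, 1] 2) [1, 0, -1]) = ((1 + s ^ 2) ^ 2 * (1 - (s ^ 2) ^ 2)) := by
    try simp only [e1_mul, e1_pw]
    simp only [e1, lev]; push_cast; ring1
  have a2 : e1 (s ^ 2) [1, 0, 0, 0, 0, 1] = (1 + (s ^ 2) ^ 5) := by
    simp only [e1, lev]; push_cast; ring1
  have a3 : e1 (s ^ 2) (lmul (fc1 2018) (fc1 258)) = (qv s (2018 / 1000) * qv s (258 / 1000)) := by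
    simp only [e1_mul, e1_fc hs]; push_cast; try ring1
  have a4 : e1 (s ^ 2) (lmul (fc1 370) (fc1 1430)) = (qv s (370 / 1000) * qv s (1430 / 1000)) := by
    simp only [e1_mul, e1_fc hs]; push_cast; try ring1
  simp only [a0, a1, a2, a3, a4] at hp
  refine last_core s _ _ _ _ hs ?_ hp
  have b3 := hyk 2
  have b4 := hyk 3
  have b8 := hyk 7
  have b10 := hyk 9
  have c5 : 0 < (s ^ 2) ^ 5 := by positivity
  have c7 : 0 < (s ^ 2) ^ 7 := by positivity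
  norm_num at b3 b4 b8 b10 ⊢
  try linarith

theorem okL11e : okY [(0, 1, 4), (1, 2, 4), (2, 3, 4), (3, 4, 4)] (LL ([0, 1] : R1) (lmul (pw1 [1, 1] 2) [1, 0, 0, 0, -1]) [1, 0, 0, 0, 0, 0, 0, 1] (lmul (fc1 1667) (fc1 142)) (lmul (fc1 234) (fc1 1063))) = true := by
  decide +kernel

theorem l11e (s : ℝ) (hs : 0 < s) (hs1 : s < 1) :
    (qv s (1667 / 1000) * qv s (142 / 1000)) ≤ (qv s (234 / 1000) * qv s (1063 / 1000)) * fo s (s ^ 3 * ((1 + s ^ 2) ^ 2 * (1 - (s ^ 2) ^ 4)) / ((1 + (s ^ 2) ^ 7) * (1 + s ^ 2) ^ 2)) := by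
  have hy0 : (0 : ℝ) < s ^ 2 := by positivity
  have hy1 : s ^ 2 < 1 := by nlinarith
  have hyk : ∀ k : ℕ, (s ^ 2) ^ (k + 1) < 1 := fun k => pow_lt_one₀ hy0.le hy1 (by omega)
  have hp := okY_spec okL11e hy0 hy1 (cov5 (s ^ 2) hy0 hy1)
  change 0 ≤ e1 (s ^ 2) _ at hp
  rw [LL_hom (h1 (s ^ 2))] at hp
  have a0 : e1 (s ^ 2) ([0, 1] : R1) = s ^ 2 := by simp [e1, lev]
  have a1 : e1 (s ^ 2) (lmul (pw1 [1, 1] 2) [1, 0, 0, 0, -1]) = ((1 + s ^ 2) ^ 2 * (1 - (s ^ 2) ^ 4)) := by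
    try simp only [e1_mul, e1_pw]
    simp only [e1, lev]; push_cast; ring1
  have a2 : e1 (s ^ 2) [1, 0, 0, 0, 0, 0, 0, 1] = (1 + (s ^ 2) ^ 7) := by
    simp only [e1, lev]; push_cast; ring1
  have a3 : e1 (s ^ 2) (lmul (fc1 1667) (fc1 142)) = (qv s (1667 / 1000) * qv s (142 / 1000)) := by
    simp only [e1_mul, e1_fc hs]; push_cast; try ring1
  have a4 : e1 (s ^ 2) (lmul (fc1 234) (fc1 1063)) = (qv s (234 / 1000) * qv s (1063 / 1000)) := by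
    simp only [e1_mul, e1_fc hs]; push_cast; try ring1
  simp only [a0, a1, a2, a3, a4] at hp
  refine last_core s _ _ _ _ hs ?_ hp
  have b3 := hyk 2
  have b4 := hyk 3
  have b8 := hyk 7
  have b10 := hyk 9
  have c5 : 0 < (s ^ 2) ^ 5 := by positivity
  have c7 : 0 < (s ^ 2) ^ 7 := by positivity
  norm_num at b3 b4 b8 b10 ⊢
  try linarith

theorem okL133 : okY [(0, 1, 2), (1, 2, 2)] (LL ([0, 1] : R1) (lmul [1, 1] (pw1 [1, 0, 0, 1] 2)) [1, 0, 0, 0, 0, 0, 0, 0, -1] (lmul (fc1 2520) (fc1 400)) (lmul (fc1 0) (fc1 2135))) = true := by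
  decide +kernel

theorem l133 (s : ℝ) (hs : 0 < s) (hs1 : s < 1) :
    (qv s (2520 / 1000) * qv s (400 / 1000)) ≤ (qv s (0 / 1000) * qv s (2135 / 1000)) * fo s (s ^ 3 * ((1 + s ^ 2) * (1 + (s ^ 2) ^ 3) ^ 2) / ((1 - (s ^ 2) ^ 8) * (1 + s ^ 2) ^ 2)) := by
  have hy0 : (0 : ℝ) < s ^ 2 := by positivity
  have hy1 : s ^ 2 < 1 := by nlinarith
  have hyk : ∀ k : ℕ, (s ^ 2) ^ (k + 1) < 1 := fun k => pow_lt_one₀ hy0.le hy1 (by omega)
  have hp := okY_spec okL133 hy0 hy1 (cov1 (s ^ 2) hy0 hy1)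
  change 0 ≤ e1 (s ^ 2) _ at hp
  rw [LL_hom (h1 (s ^ 2))] at hp
  have a0 : e1 (s ^ 2) ([0, 1] : R1) = s ^ 2 := by simp [e1, lev]
  have a1 : e1 (s ^ 2) (lmul [1, 1] (pw1 [1, 0, 0, 1] 2)) = ((1 + s ^ 2) * (1 + (s ^ 2) ^ 3) ^ 2) := by
    try simp only [e1_mul, e1_pw]
    simp only [e1, lev]; push_cast; ring1
  have a2 : e1 (s ^ 2) [1, 0, 0, 0, 0, 0, 0, 0, -1] = (1 - (s ^ 2) ^ 8) := by
    simp only [e1, lev]; push_cast; ring1
  have a3 : e1 (s ^ 2) (lmul (fc1 2520) (fc1 400)) = (qv s (2520 / 1000) * qv s (400 / 1000)) := by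
    simp only [e1_mul, e1_fc hs]; push_cast; try ring1
  have a4 : e1 (s ^ 2) (lmul (fc1 0) (fc1 2135)) = (qv s (0 / 1000) * qv s (2135 / 1000)) := by
    simp only [e1_mul, e1_fc hs]; push_cast; try ring1
  simp only [a0, a1, a2, a3, a4] at hp
  refine last_core s _ _ _ _ hs ?_ hp
  have b3 := hyk 2
  have b4 := hyk 3
  have b8 := hyk 7
  have b10 := hyk 9
  have c5 : 0 < (s ^ 2) ^ 5 := by positivity
  have c7 : 0 < (s ^ 2) ^ 7 := by positivity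
  norm_num at b3 b4 b8 b10 ⊢
  try linarith

theorem okL1oo : okY [(0, 1, 2), (1, 2, 2)] (LL ([0, 1] : R1) [1, 1] [1] (lmul (fc1 2360) (fc1 585)) (lmul (fc1 535) (fc1 1908))) = true := by
  decide +kernel

theorem l1oo (s : ℝ) (hs : 0 < s) (hs1 : s < 1) :
    (qv s (2360 / 1000) * qv s (585 / 1000)) ≤ (qv s (535 / 1000) * qv s (1908 / 1000)) * fo s (s ^ 3 * (1 + s ^ 2) / (1 * (1 + s ^ 2) ^ 2)) := by
  have hy0 : (0 : ℝ) < s ^ 2 := by positivity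
  have hy1 : s ^ 2 < 1 := by nlinarith
  have hyk : ∀ k : ℕ, (s ^ 2) ^ (k + 1) < 1 := fun k => pow_lt_one₀ hy0.le hy1 (by omega)
  have hp := okY_spec okL1oo hy0 hy1 (cov1 (s ^ 2) hy0 hy1)
  change 0 ≤ e1 (s ^ 2) _ at hp
  rw [LL_hom (h1 (s ^ 2))] at hp
  have a0 : e1 (s ^ 2) ([0, 1] : R1) = s ^ 2 := by simp [e1, lev]
  have a1 : e1 (s ^ 2) [1, 1] = (1 + s ^ 2) := by
    try simp only [e1_mul, e1_pw]
    simp only [e1, lev]; push_cast; ring1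
  have a2 : e1 (s ^ 2) [1] = 1 := by
    simp only [e1, lev]; push_cast; ring1
  have a3 : e1 (s ^ 2) (lmul (fc1 2360) (fc1 585)) = (qv s (2360 / 1000) * qv s (585 / 1000)) := by
    simp only [e1_mul, e1_fc hs]; push_cast; try ring1
  have a4 : e1 (s ^ 2) (lmul (fc1 535) (fc1 1908)) = (qv s (535 / 1000) * qv s (1908 / 1000)) := by
    simp only [e1_mul, e1_fc hs]; push_cast; try ring1
  simp only [a0, a1, a2, a3, a4] at hp
  refine last_core s _ _ _ _ hs ?_ hp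
  have b3 := hyk 2
  have b4 := hyk 3
  have b8 := hyk 7
  have b10 := hyk 9
  have c5 : 0 < (s ^ 2) ^ 5 := by positivity
  have c7 : 0 < (s ^ 2) ^ 7 := by positivity
  norm_num at b3 b4 b8 b10 ⊢
  try linarith

theorem okL333 : okY [(0, 1, 2), (1, 2, 2)] (LL ([0, 1] : R1) (pw1 [1, 0, 0, 1] 3) [1, 0, 0, 0, 0, 0, 0, 0, 0, 0, -1] (lmul (fc1 2910) (fc1 330)) (lmul (fc1 0) (fc1 2570))) = true := by
  decide +kernel

theorem l333 (s : ℝ) (hs : 0 < s) (hs1 : s < 1) :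
    (qv s (2910 / 1000) * qv s (330 / 1000)) ≤ (qv s (0 / 1000) * qv s (2570 / 1000)) * fo s (s ^ 3 * (1 + (s ^ 2) ^ 3) ^ 3 / ((1 - (s ^ 2) ^ 10) * (1 + s ^ 2) ^ 2)) := by
  have hy0 : (0 : ℝ) < s ^ 2 := by positivity
  have hy1 : s ^ 2 < 1 := by nlinarith
  have hyk : ∀ k : ℕ, (s ^ 2) ^ (k + 1) < 1 := fun k => pow_lt_one₀ hy0.le hy1 (by omega)
  have hp := okY_spec okL333 hy0 hy1 (cov1 (s ^ 2) hy0 hy1)
  change 0 ≤ e1 (s ^ 2) _ at hp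
  rw [LL_hom (h1 (s ^ 2))] at hp
  have a0 : e1 (s ^ 2) ([0, 1] : R1) = s ^ 2 := by simp [e1, lev]
  have a1 : e1 (s ^ 2) (pw1 [1, 0, 0, 1] 3) = (1 + (s ^ 2) ^ 3) ^ 3 := by
    try simp only [e1_mul, e1_pw]
    simp only [e1, lev]; push_cast; ring1
  have a2 : e1 (s ^ 2) [1, 0, 0, 0, 0, 0, 0, 0, 0, 0, -1] = (1 - (s ^ 2) ^ 10) := by
    simp only [e1, lev]; push_cast; ring1
  have a3 : e1 (s ^ 2) (lmul (fc1 2910) (fc1 330)) = (qv s (2910 / 1000) * qv s (330 / 1000)) := by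
    simp only [e1_mul, e1_fc hs]; push_cast; try ring1
  have a4 : e1 (s ^ 2) (lmul (fc1 0) (fc1 2570)) = (qv s (0 / 1000) * qv s (2570 / 1000)) := by
    simp only [e1_mul, e1_fc hs]; push_cast; try ring1
  simp only [a0, a1, a2, a3, a4] at hp
  refine last_core s _ _ _ _ hs ?_ hp
  have b3 := hyk 2
  have b4 := hyk 3
  have b8 := hyk 7
  have b10 := hyk 9
  have c5 : 0 < (s ^ 2) ^ 5 := by positivity
  have c7 : 0 < (s ^ 2) ^ 7 := by positivity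
  norm_num at b3 b4 b8 b10 ⊢
  try linarith

theorem okLooo : okY [(0, 1, 2), (1, 2, 2)] (LL ([0, 1] : R1) [1] [1] (lmul (fc1 2540) (fc1 590)) (lmul (fc1 640) (fc1 2099))) = true := by
  decide +kernel

theorem looo (s : ℝ) (hs : 0 < s) (hs1 : s < 1) :
    (qv s (2540 / 1000) * qv s (590 / 1000)) ≤ (qv s (640 / 1000) * qv s (2099 / 1000)) * fo s (s ^ 3 * 1 / (1 * (1 + s ^ 2) ^ 2)) := by
  have hy0 : (0 : ℝ) < s ^ 2 := by positivity
  have hy1 : s ^ 2 < 1 := by nlinarith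
  have hyk : ∀ k : ℕ, (s ^ 2) ^ (k + 1) < 1 := fun k => pow_lt_one₀ hy0.le hy1 (by omega)
  have hp := okY_spec okLooo hy0 hy1 (cov1 (s ^ 2) hy0 hy1)
  change 0 ≤ e1 (s ^ 2) _ at hp
  rw [LL_hom (h1 (s ^ 2))] at hp
  have a0 : e1 (s ^ 2) ([0, 1] : R1) = s ^ 2 := by simp [e1, lev]
  have a1 : e1 (s ^ 2) [1] = 1 := by
    try simp only [e1_mul, e1_pw]
    simp only [e1, lev]; push_cast; ring1
  have a2 : e1 (s ^ 2) [1] = 1 := by
    simp only [e1, lev]; push_cast; ring1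
  have a3 : e1 (s ^ 2) (lmul (fc1 2540) (fc1 590)) = (qv s (2540 / 1000) * qv s (590 / 1000)) := by
    simp only [e1_mul, e1_fc hs]; push_cast; try ring1
  have a4 : e1 (s ^ 2) (lmul (fc1 640) (fc1 2099)) = (qv s (640 / 1000) * qv s (2099 / 1000)) := by
    simp only [e1_mul, e1_fc hs]; push_cast; try ring1
  simp only [a0, a1, a2, a3, a4] at hp
  refine last_core s _ _ _ _ hs ?_ hp
  have b3 := hyk 2
  have b4 := hyk 3
  have b8 := hyk 7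
  have b10 := hyk 9
  have c5 : 0 < (s ^ 2) ^ 5 := by positivity
  have c7 : 0 < (s ^ 2) ^ 7 := by positivity
  norm_num at b3 b4 b8 b10 ⊢
  try linarith

theorem okL1oe : okY [(0, 1, 2), (1, 2, 2)] (LL ([0, 1] : R1) (lmul [1, 1] [1, 0, -1]) [1] (lmul (fc1 2350) (fc1 311)) (lmul (fc1 1865) (fc1 395))) = true := by
  decide +kernel

theorem l1oe (s : ℝ) (hs : 0 < s) (hs1 : s < 1) :
    (qv s (2350 / 1000) * qv s (311 / 1000)) ≤ (qv s (1865 / 1000) * qv s (395 / 1000)) * fo s (s ^ 3 * ((1 + s ^ 2) * (1 - (s ^ 2) ^ 2)) / (1 * (1 + s ^ 2) ^ 2)) := by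
  have hy0 : (0 : ℝ) < s ^ 2 := by positivity
  have hy1 : s ^ 2 < 1 := by nlinarith
  have hyk : ∀ k : ℕ, (s ^ 2) ^ (k + 1) < 1 := fun k => pow_lt_one₀ hy0.le hy1 (by omega)
  have hp := okY_spec okL1oe hy0 hy1 (cov1 (s ^ 2) hy0 hy1)
  change 0 ≤ e1 (s ^ 2) _ at hp
  rw [LL_hom (h1 (s ^ 2))] at hp
  have a0 : e1 (s ^ 2) ([0, 1] : R1) = s ^ 2 := by simp [e1, lev]
  have a1 : e1 (s ^ 2) (lmul [1, 1] [1, 0, -1]) = ((1 + s ^ 2) * (1 - (s ^ 2) ^ 2)) := by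
    try simp only [e1_mul, e1_pw]
    simp only [e1, lev]; push_cast; ring1
  have a2 : e1 (s ^ 2) [1] = 1 := by
    simp only [e1, lev]; push_cast; ring1
  have a3 : e1 (s ^ 2) (lmul (fc1 2350) (fc1 311)) = (qv s (2350 / 1000) * qv s (311 / 1000)) := by
    simp only [e1_mul, e1_fc hs]; push_cast; try ring1
  have a4 : e1 (s ^ 2) (lmul (fc1 1865) (fc1 395)) = (qv s (1865 / 1000) * qv s (395 / 1000)) := by
    simp only [e1_mul, e1_fc hs]; push_cast; try ring1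
  simp only [a0, a1, a2, a3, a4] at hp
  refine last_core s _ _ _ _ hs ?_ hp
  have b3 := hyk 2
  have b4 := hyk 3
  have b8 := hyk 7
  have b10 := hyk 9
  have c5 : 0 < (s ^ 2) ^ 5 := by positivity
  have c7 : 0 < (s ^ 2) ^ 7 := by positivity
  norm_num at b3 b4 b8 b10 ⊢
  try linarith

theorem okLooe : okY [(0, 1, 2), (1, 2, 2)] (LL ([0, 1] : R1) [1, 0, -1] [1] (lmul (fc1 2528) (fc1 532)) (lmul (fc1 2065) (fc1 654))) = true := by
  decide +kernel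

theorem looe (s : ℝ) (hs : 0 < s) (hs1 : s < 1) :
    (qv s (2528 / 1000) * qv s (532 / 1000)) ≤ (qv s (2065 / 1000) * qv s (654 / 1000)) * fo s (s ^ 3 * (1 - (s ^ 2) ^ 2) / (1 * (1 + s ^ 2) ^ 2)) := by
  have hy0 : (0 : ℝ) < s ^ 2 := by positivity
  have hy1 : s ^ 2 < 1 := by nlinarith
  have hyk : ∀ k : ℕ, (s ^ 2) ^ (k + 1) < 1 := fun k => pow_lt_one₀ hy0.le hy1 (by omega)
  have hp := okY_spec okLooe hy0 hy1 (cov1 (s ^ 2) hy0 hy1)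
  change 0 ≤ e1 (s ^ 2) _ at hp
  rw [LL_hom (h1 (s ^ 2))] at hp
  have a0 : e1 (s ^ 2) ([0, 1] : R1) = s ^ 2 := by simp [e1, lev]
  have a1 : e1 (s ^ 2) [1, 0, -1] = (1 - (s ^ 2) ^ 2) := by
    try simp only [e1_mul, e1_pw]
    simp only [e1, lev]; push_cast; ring1
  have a2 : e1 (s ^ 2) [1] = 1 := by
    simp only [e1, lev]; push_cast; ring1
  have a3 : e1 (s ^ 2) (lmul (fc1 2528) (fc1 532)) = (qv s (2528 / 1000) * qv s (532 / 1000)) := by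
    simp only [e1_mul, e1_fc hs]; push_cast; try ring1
  have a4 : e1 (s ^ 2) (lmul (fc1 2065) (fc1 654)) = (qv s (2065 / 1000) * qv s (654 / 1000)) := by
    simp only [e1_mul, e1_fc hs]; push_cast; try ring1
  simp only [a0, a1, a2, a3, a4] at hp
  refine last_core s _ _ _ _ hs ?_ hp
  have b3 := hyk 2
  have b4 := hyk 3
  have b8 := hyk 7
  have b10 := hyk 9
  have c5 : 0 < (s ^ 2) ^ 5 := by positivity
  have c7 : 0 < (s ^ 2) ^ 7 := by positivity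
  norm_num at b3 b4 b8 b10 ⊢
  try linarith

theorem okLxxx : okY [(0, 1, 2), (1, 2, 2)] (LL ([0, 1] : R1) (pw1 [1, 0, -1] 3) [1, 0, 0, 0, 0, 0, 0, 1] (lmul (fc1 900) (fc1 2345)) (lmul (fc1 1463) (fc1 1480))) = true := by
  decide +kernel

theorem lxxx (s : ℝ) (hs : 0 < s) (hs1 : s < 1) :
    (qv s (900 / 1000) * qv s (2345 / 1000)) ≤ (qv s (1463 / 1000) * qv s (1480 / 1000)) * fo s (s ^ 3 * (1 - (s ^ 2) ^ 2) ^ 3 / ((1 + (s ^ 2) ^ 7) * (1 + s ^ 2) ^ 2)) := by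
  have hy0 : (0 : ℝ) < s ^ 2 := by positivity
  have hy1 : s ^ 2 < 1 := by nlinarith
  have hyk : ∀ k : ℕ, (s ^ 2) ^ (k + 1) < 1 := fun k => pow_lt_one₀ hy0.le hy1 (by omega)
  have hp := okY_spec okLxxx hy0 hy1 (cov1 (s ^ 2) hy0 hy1)
  change 0 ≤ e1 (s ^ 2) _ at hp
  rw [LL_hom (h1 (s ^ 2))] at hp
  have a0 : e1 (s ^ 2) ([0, 1] : R1) = s ^ 2 := by simp [e1, lev]
  have a1 : e1 (s ^ 2) (pw1 [1, 0, -1] 3) = (1 - (s ^ 2) ^ 2) ^ 3 := by
    try simp only [e1_mul, e1_pw]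
    simp only [e1, lev]; push_cast; ring1
  have a2 : e1 (s ^ 2) [1, 0, 0, 0, 0, 0, 0, 1] = (1 + (s ^ 2) ^ 7) := by
    simp only [e1, lev]; push_cast; ring1
  have a3 : e1 (s ^ 2) (lmul (fc1 900) (fc1 2345)) = (qv s (900 / 1000) * qv s (2345 / 1000)) := by
    simp only [e1_mul, e1_fc hs]; push_cast; try ring1
  have a4 : e1 (s ^ 2) (lmul (fc1 1463) (fc1 1480)) = (qv s (1463 / 1000) * qv s (1480 / 1000)) := by
    simp only [e1_mul, e1_fc hs]; push_cast; try ring1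
  simp only [a0, a1, a2, a3, a4] at hp
  refine last_core s _ _ _ _ hs ?_ hp
  have b3 := hyk 2
  have b4 := hyk 3
  have b8 := hyk 7
  have b10 := hyk 9
  have c5 : 0 < (s ^ 2) ^ 5 := by positivity
  have c7 : 0 < (s ^ 2) ^ 7 := by positivity
  norm_num at b3 b4 b8 b10 ⊢
  try linarith

end Pool.W39.LE.PC
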