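import Pool.Agent.W39.LE.L1

set_option autoImplicit false

namespace Pool.W39.LE.PC

open Pool.W39.LE Rg

/-- the statement for a given gain and given powers -/
def LO (g : ℝ) (f : ℝ → ℝ × ℝ × ℝ) : Prop :=
  ∃ P Q : List ℝ, PQ P Q g ∧ ∀ s : ℝ, 0 < s → s < 1 →
    PR P (xs s) ≤ PR Q (xs s) * fo s (oms s (f s).1 (f s).2.1 (f s).2.2)

theorem qq2 {s : ℝ} (hs : 0 < s) {p1 p2 q1 q2 w : ℝ}
    (h : qv s p1 * qv s p2 ≤ qv s q1 * qv s q2 * w) :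
    PR [p1, p2] (xs s) ≤ PR [q1, q2] (xs s) * w := by
  have hC : 0 < (1000000 * s ^ 2) ^ 2 := by positivity
  have h1 : qv s p1 * qv s p2 = (1000000 * s ^ 2) ^ 2 * PR [p1, p2] (xs s) := by
    simp only [PR, qv, List.map, List.prod_cons, List.prod_nil]; ring
  have h2 : qv s q1 * qv s q2 = (1000000 * s ^ 2) ^ 2 * PR [q1, q2] (xs s) := by
    simp only [PR, qv, List.map, List.prod_cons, List.prod_nil]; ring
  rw [h1, h2, mul_assoc] at h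
  exact le_of_mul_le_mul_left h hC

theorem qq3 {s : ℝ} (hs : 0 < s) {p1 p2 p3 q1 q2 q3 w : ℝ}
    (h : qv s p1 * qv s p2 * qv s p3 ≤ qv s q1 * qv s q2 * qv s q3 * w) :
    PR [p1, p2, p3] (xs s) ≤ PR [q1, q2, q3] (xs s) * w := by
  have hC : 0 < (1000000 * s ^ 2) ^ 3 := by positivity
  have h1 : qv s p1 * qv s p2 * qv s p3 = (1000000 * s ^ 2) ^ 3 * PR [p1, p2, p3] (xs s) := by
    simp only [PR, qv, List.map, List.prod_cons, List.prod_nil]; ring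
  have h2 : qv s q1 * qv s q2 * qv s q3 = (1000000 * s ^ 2) ^ 3 * PR [q1, q2, q3] (xs s) := by
    simp only [PR, qv, List.map, List.prod_cons, List.prod_nil]; ring
  rw [h1, h2, mul_assoc] at h
  exact le_of_mul_le_mul_left h hC

theorem PR_nonneg (P : List ℝ) (x : ℝ) : 0 ≤ PR P x := by
  unfold PR
  apply List.prod_nonneg
  intro a ha
  obtain ⟨p, _, rfl⟩ := List.mem_map.mp ha
  positivity

/-- transfer from the minimal omega -/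
theorem tr {s A B C N K : ℝ} {P Q : List ℝ} (hs : 0 < s) (hs1 : s < 1) (hN : 0 ≤ N) (hK : 0 < K)
    (hD : 0 < 1 + s ^ 2 * (A * B * C))
    (h : N * (1 + s ^ 2 * (A * B * C)) ≤ K * ((1 - A) * (1 - B) * (1 - C)))
    (h0 : PR P (xs s) ≤ PR Q (xs s) * fo s (s ^ 3 * N / (K * (1 + s ^ 2) ^ 2))) :
    PR P (xs s) ≤ PR Q (xs s) * fo s (oms s A B C) := by
  refine h0.trans (mul_le_mul_of_nonneg_left ?_ (PR_nonneg _ _))
  exact fo_mono hs hs1 (by positivity) (oms_le s A B C N K hs hK hD h)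

theorem pqm2 (g p1 p2 q1 q2 : ℝ) (h1 : 0 ≤ p1) (h2 : 0 ≤ p2) (h3 : 0 ≤ q1) (h4 : 0 ≤ q2)
    (hg : g ≤ p1 + p2 - (q1 + q2)) : PQ [p1, p2] [q1, q2] g := by
  refine ⟨rfl, ?_, ?_, ?_⟩
  · intro p hp
    simp only [List.mem_cons, List.not_mem_nil, or_false] at hp
    rcases hp with h | h <;> rw [h] <;> assumption
  · intro p hp
    simp only [List.mem_cons, List.not_mem_nil, or_false] at hp
    rcases hp with h | h <;> rw [h] <;> assumption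
  · simp only [List.sum_cons, List.sum_nil]
    linarith

/-- the claim for legs `a b c` -/
def LC (a b c : ℕ) : Prop :=
  ∃ P Q : List ℝ, PQ P Q ((Lt a b c : ℝ) / 1000) ∧
    ∀ s : ℝ, 0 < s → s < 1 →
      PR P (xs s) ≤ PR Q (xs s) * fo s (oms s ((-s ^ 2) ^ a) ((-s ^ 2) ^ b) ((-s ^ 2) ^ c))

theorem oms12 (s A B C : ℝ) : oms s A B C = oms s B A C := by
  unfold oms; rw [mul_comm (1 - A) (1 - B), mul_comm A B]

theorem oms23 (s A B C : ℝ) : oms s A B C = oms s A C B := by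
  unfold oms; rw [mul_right_comm (1 - A), mul_right_comm A]

theorem Lt12 (a b c : ℕ) : Lt a b c = Lt b a c := by
  unfold Lt
  rw [Nat.add_comm ((a + 1) % 2) ((b + 1) % 2),
    Nat.add_comm (if a = 1 then 1 else 0) (if b = 1 then 1 else 0)]
  have e1 : (a = 3 ∨ b = 3 ∨ c = 3) ↔ (b = 3 ∨ a = 3 ∨ c = 3) := or_left_comm
  have e2 : (a = 5 ∨ b = 5 ∨ c = 5) ↔ (b = 5 ∨ a = 5 ∨ c = 5) := or_left_comm
  have e3 : (a = 2 ∨ b = 2 ∨ c = 2) ↔ (b = 2 ∨ a = 2 ∨ c = 2) := or_left_comm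
  have e4 : (a ≤ 3 ∧ b ≤ 3 ∧ c ≤ 3) ↔ (b ≤ 3 ∧ a ≤ 3 ∧ c ≤ 3) := and_left_comm
  simp only [e1, e2, e3, e4]

theorem Lt23 (a b c : ℕ) : Lt a b c = Lt a c b := by
  unfold Lt
  rw [Nat.add_right_comm ((a + 1) % 2) ((b + 1) % 2) ((c + 1) % 2),
    Nat.add_right_comm (if a = 1 then 1 else 0) (if b = 1 then 1 else 0) (if c = 1 then 1 else 0)]
  have e1 : (a = 3 ∨ b = 3 ∨ c = 3) ↔ (a = 3 ∨ c = 3 ∨ b = 3) := or_congr_right or_comm
  have e2 : (a = 5 ∨ b = 5 ∨ c = 5) ↔ (a = 5 ∨ c = 5 ∨ b = 5) := or_congr_right or_comm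
  have e3 : (a = 2 ∨ b = 2 ∨ c = 2) ↔ (a = 2 ∨ c = 2 ∨ b = 2) := or_congr_right or_comm
  have e4 : (a ≤ 3 ∧ b ≤ 3 ∧ c ≤ 3) ↔ (a ≤ 3 ∧ c ≤ 3 ∧ b ≤ 3) := and_congr_right' and_comm
  simp only [e1, e2, e3, e4]

theorem LC12 {a b c : ℕ} (h : LC b a c) : LC a b c := by
  obtain ⟨P, Q, h1, h2⟩ := h
  refine ⟨P, Q, by rw [Lt12]; exact h1, fun s hs hs1 => ?_⟩
  rw [oms12]; exact h2 s hs hs1

theorem LC23 {a b c : ℕ} (h : LC a c b) : LC a b c := by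
  obtain ⟨P, Q, h1, h2⟩ := h
  refine ⟨P, Q, by rw [Lt23]; exact h1, fun s hs hs1 => ?_⟩
  rw [oms23]; exact h2 s hs hs1

end Pool.W39.LE.PC
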