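import Pool.Agent.W39.LE.L2

set_option autoImplicit false

namespace Pool.W39.LE.PC

open Pool.W39.LE Rg

theorem podd {s : ℝ} {a : ℕ} (h : a % 2 = 1) : (-s ^ 2) ^ a = -((s ^ 2) ^ a) :=
  (Nat.odd_iff.mpr h).neg_pow _

theorem pev {s : ℝ} {a : ℕ} (h : a % 2 = 0) : (-s ^ 2) ^ a = (s ^ 2) ^ a :=
  (Nat.even_iff.mpr h).neg_pow _

theorem vle' {s : ℝ} (hs : 0 < s) (hs1 : s < 1) {k a : ℕ} (h : k ≤ a) :
    (s ^ 2) ^ a ≤ (s ^ 2) ^ k :=
  pow_le_pow_of_le_one (by positivity) (by nlinarith) h

theorem prod_lt {y u v w : ℝ} (hy : 0 < y) (hy1 : y < 1) (hu : 0 < u) (hu1 : u ≤ 1) (hv : 0 < v)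
    (hv1 : v ≤ 1) (hw : 0 < w) (hw1 : w ≤ 1) : y * (u * v * w) < 1 := by
  have h1 : u * v * w ≤ 1 := mul_le_one₀ (mul_le_one₀ hu1 hv.le hv1) hw.le hw1
  nlinarith

/-- all legs odd, sorted -/
theorem lcO {a b c : ℕ} (ha : a % 2 = 1) (hb : b % 2 = 1) (hc : c % 2 = 1) (hab : a ≤ b)
    (hbc : b ≤ c) : LC a b c := by
  rcases Nat.lt_or_ge c 3 with c3 | c3
  · obtain rfl : c = 1 := by omega
    obtain rfl : b = 1 := by omega
    obtain rfl : a = 1 := by omega
    refine ⟨[1000 / 1000, 1000 / 1000, 2000 / 1000], [0 / 1000, 1415 / 1000, 1415 / 1000], ?_, ?_⟩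
    · refine ⟨rfl, ?_, ?_, ?_⟩
      · simp; norm_num
      · simp; norm_num
      · have : Lt 1 1 1 = 1000 := by decide
        rw [this]; norm_num
    · intro s hs hs1
      have hy0 : (0 : ℝ) < s ^ 2 := by positivity
      have hy1 : s ^ 2 < 1 := by nlinarith
      have h := qq3 hs (l111 s hs hs1)
      have h4 : (s ^ 2) ^ 4 < 1 := pow_lt_one₀ hy0.le hy1 (by norm_num)
      refine tr hs hs1 (by positivity) (by linarith) ?_ ?_ h
      · rw [pow_one]
        have : 1 + s ^ 2 * (-s ^ 2 * -s ^ 2 * -s ^ 2) = 1 - (s ^ 2) ^ 4 := by ring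
        rw [this]; linarith
      · apply le_of_eq; rw [pow_one]; ring
  rcases Nat.lt_or_ge b 3 with b3 | b3
  · obtain rfl : b = 1 := by omega
    obtain rfl : a = 1 := by omega
    by_cases hc3 : c = 3
    · subst hc3
      refine ⟨[530 / 1000, 2220 / 1000], [0 / 1000, 1800 / 1000], ?_, ?_⟩
      · refine pqm2 _ _ _ _ _ (by norm_num) (by norm_num) (by norm_num) (by norm_num) ?_
        have : Lt 1 1 3 = 950 := by decide
        rw [this]; norm_num
      · intro s hs hs1
        have hy0 : (0 : ℝ) < s ^ 2 := by positivity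
        have hy1 : s ^ 2 < 1 := by nlinarith
        have h := qq2 hs (l113 s hs hs1)
        have h4 : (s ^ 2) ^ 3 < 1 := pow_lt_one₀ hy0.le hy1 (by norm_num)
        have h6 : (s ^ 2) ^ 6 < 1 := pow_lt_one₀ hy0.le hy1 (by norm_num)
        refine tr hs hs1 (by positivity) (by linarith) ?_ ?_ h
        · have : 1 + s ^ 2 * ((-s ^ 2) ^ 1 * (-s ^ 2) ^ 1 * (-s ^ 2) ^ 3) = 1 - (s ^ 2) ^ 6 := by
            ring
          rw [this]; linarith
        · apply le_of_eq; ring
    by_cases hc5 : c = 5
    · subst hc5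
      refine ⟨[2070 / 1000, 375 / 1000], [0 / 1000, 1585 / 1000], ?_, ?_⟩
      · refine pqm2 _ _ _ _ _ (by norm_num) (by norm_num) (by norm_num) (by norm_num) ?_
        have : Lt 1 1 5 = 860 := by decide
        rw [this]; norm_num
      · intro s hs hs1
        have hy0 : (0 : ℝ) < s ^ 2 := by positivity
        have hy1 : s ^ 2 < 1 := by nlinarith
        have h := qq2 hs (l115 s hs hs1)
        have h8 : (s ^ 2) ^ 8 < 1 := pow_lt_one₀ hy0.le hy1 (by norm_num)
        refine tr hs hs1 (by positivity) (by linarith) ?_ ?_ h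
        · have : 1 + s ^ 2 * ((-s ^ 2) ^ 1 * (-s ^ 2) ^ 1 * (-s ^ 2) ^ 5) = 1 - (s ^ 2) ^ 8 := by
            ring
          rw [this]; linarith
        · apply le_of_eq; ring
    · refine ⟨[675 / 1000, 2200 / 1000], [1767 / 1000, 437 / 1000], ?_, ?_⟩
      · refine pqm2 _ _ _ _ _ (by norm_num) (by norm_num) (by norm_num) (by norm_num) ?_
        have h1 : c ≠ 1 := by omega
        have h2 : (c + 1) % 2 = 0 := by omega
        have : Lt 1 1 c = 670 := by simp [Lt, h1, h2, hc3, hc5]
        rw [this]; norm_num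
      · intro s hs hs1
        have hy0 : (0 : ℝ) < s ^ 2 := by positivity
        have hy1 : s ^ 2 < 1 := by nlinarith
        have h := qq2 hs (l11o s hs hs1)
        have hv := vpos hs c
        have hv1 := vle hs hs1 c
        rw [podd hc, pow_one]
        generalize (s ^ 2) ^ c = v at hv hv1
        have h3 : 0 < (s ^ 2) ^ 3 := by positivity
        have h31 : (s ^ 2) ^ 3 < 1 := pow_lt_one₀ hy0.le hy1 (by norm_num)
        have e : 1 + s ^ 2 * (-s ^ 2 * -s ^ 2 * -v) = 1 - (s ^ 2) ^ 3 * v := by ring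
        refine tr hs hs1 (by positivity) one_pos ?_ ?_ h
        · rw [e]; nlinarith
        · rw [e]
          have h5 : 0 ≤ (1 + s ^ 2) ^ 2 := by positivity
          have : 1 * ((1 - -s ^ 2) * (1 - -s ^ 2) * (1 - -v)) = (1 + s ^ 2) ^ 2 * (1 + v) := by
            ring
          rw [this]
          apply mul_le_mul_of_nonneg_left _ h5
          nlinarith
  rcases Nat.lt_or_ge a 3 with a3 | a3
  · obtain rfl : a = 1 := by omega
    by_cases hc3 : c = 3
    · subst hc3
      obtain rfl : b = 3 := by omega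
      refine ⟨[2520 / 1000, 400 / 1000], [0 / 1000, 2135 / 1000], ?_, ?_⟩
      · refine pqm2 _ _ _ _ _ (by norm_num) (by norm_num) (by norm_num) (by norm_num) ?_
        have : Lt 1 3 3 = 785 := by decide
        rw [this]; norm_num
      · intro s hs hs1
        have hy0 : (0 : ℝ) < s ^ 2 := by positivity
        have hy1 : s ^ 2 < 1 := by nlinarith
        have h := qq2 hs (l133 s hs hs1)
        have h8 : (s ^ 2) ^ 8 < 1 := pow_lt_one₀ hy0.le hy1 (by norm_num)
        refine tr hs hs1 (by positivity) (by linarith) ?_ ?_ h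
        · have : 1 + s ^ 2 * ((-s ^ 2) ^ 1 * (-s ^ 2) ^ 3 * (-s ^ 2) ^ 3) = 1 - (s ^ 2) ^ 8 := by
            ring
          rw [this]; linarith
        · apply le_of_eq; ring
    · refine ⟨[2360 / 1000, 585 / 1000], [535 / 1000, 1908 / 1000], ?_, ?_⟩
      · refine pqm2 _ _ _ _ _ (by norm_num) (by norm_num) (by norm_num) (by norm_num) ?_
        have h1 : c ≠ 1 := by omega
        have h2 : (c + 1) % 2 = 0 := by omega
        have h3 : b ≠ 1 := by omega
        have h4 : (b + 1) % 2 = 0 := by omega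
        have h5 : ¬ c ≤ 3 := by omega
        have : Lt 1 b c = 500 := by simp [Lt, h1, h2, h3, h4, h5]
        rw [this]; norm_num
      · intro s hs hs1
        have hy0 : (0 : ℝ) < s ^ 2 := by positivity
        have hy1 : s ^ 2 < 1 := by nlinarith
        have h := qq2 hs (l1oo s hs hs1)
        have hv := vpos hs c
        have hv1 := vle hs hs1 c
        have hu := vpos hs b
        have hu1 := vle hs hs1 b
        rw [podd hc, podd hb, pow_one]
        generalize (s ^ 2) ^ c = v at hv hv1
        generalize (s ^ 2) ^ b = u at hu hu1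
        have hp := prod_lt hy0 hy1 hu hu1 hv hv1 hy0 hy1.le
        have hp0 : 0 < s ^ 2 * (u * v * s ^ 2) := by positivity
        have e : 1 + s ^ 2 * (-s ^ 2 * -u * -v) = 1 - s ^ 2 * (u * v * s ^ 2) := by ring
        refine tr hs hs1 (by positivity) one_pos ?_ ?_ h
        · rw [e]; linarith
        · rw [e]
          have h5 : 0 ≤ (1 + s ^ 2) := by positivity
          have : 1 * ((1 - -s ^ 2) * (1 - -u) * (1 - -v)) = (1 + s ^ 2) * ((1 + u) * (1 + v)) := by
            ring
          rw [this]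
          apply mul_le_mul_of_nonneg_left _ h5
          nlinarith [mul_pos hu hv]
  · by_cases hc3 : c = 3
    · subst hc3
      obtain rfl : b = 3 := by omega
      obtain rfl : a = 3 := by omega
      refine ⟨[2910 / 1000, 330 / 1000], [0 / 1000, 2570 / 1000], ?_, ?_⟩
      · refine pqm2 _ _ _ _ _ (by norm_num) (by norm_num) (by norm_num) (by norm_num) ?_
        have : Lt 3 3 3 = 670 := by decide
        rw [this]; norm_num
      · intro s hs hs1
        have hy0 : (0 : ℝ) < s ^ 2 := by positivity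
        have hy1 : s ^ 2 < 1 := by nlinarith
        have h := qq2 hs (l333 s hs hs1)
        have h8 : (s ^ 2) ^ 10 < 1 := pow_lt_one₀ hy0.le hy1 (by norm_num)
        refine tr hs hs1 (by positivity) (by linarith) ?_ ?_ h
        · have : 1 + s ^ 2 * ((-s ^ 2) ^ 3 * (-s ^ 2) ^ 3 * (-s ^ 2) ^ 3) = 1 - (s ^ 2) ^ 10 := by
            ring
          rw [this]; linarith
        · apply le_of_eq; ring
    · refine ⟨[2540 / 1000, 590 / 1000], [640 / 1000, 2099 / 1000], ?_, ?_⟩
      · refine pqm2 _ _ _ _ _ (by norm_num) (by norm_num) (by norm_num) (by norm_num) ?_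
        have h1 : c ≠ 1 := by omega
        have h2 : (c + 1) % 2 = 0 := by omega
        have h3 : b ≠ 1 := by omega
        have h4 : (b + 1) % 2 = 0 := by omega
        have h5 : ¬ c ≤ 3 := by omega
        have h6 : a ≠ 1 := by omega
        have h7 : (a + 1) % 2 = 0 := by omega
        have : Lt a b c = 390 := by simp [Lt, h1, h2, h3, h4, h5, h6, h7]
        rw [this]; norm_num
      · intro s hs hs1
        have hy0 : (0 : ℝ) < s ^ 2 := by positivity
        have hy1 : s ^ 2 < 1 := by nlinarith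
        have h := qq2 hs (looo s hs hs1)
        have hv := vpos hs c
        have hv1 := vle hs hs1 c
        have hu := vpos hs b
        have hu1 := vle hs hs1 b
        have hw := vpos hs a
        have hw1 := vle hs hs1 a
        rw [podd hc, podd hb, podd ha]
        generalize (s ^ 2) ^ c = v at hv hv1
        generalize (s ^ 2) ^ b = u at hu hu1
        generalize (s ^ 2) ^ a = w at hw hw1
        have hp := prod_lt hy0 hy1 hw hw1 hu hu1 hv hv1
        have hp0 : 0 < s ^ 2 * (w * u * v) := by positivity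
        have e : 1 + s ^ 2 * (-w * -u * -v) = 1 - s ^ 2 * (w * u * v) := by ring
        refine tr hs hs1 zero_le_one one_pos ?_ ?_ h
        · rw [e]; linarith
        · rw [e]
          have : 1 * ((1 - -w) * (1 - -u) * (1 - -v)) = (1 + w) * (1 + u) * (1 + v) := by
            ring
          rw [this]
          have h5 : 0 < w * u := by positivity
          have h6 : 0 < w * v := by positivity
          have h7 : 0 < u * v := by positivity
          have h8 : 0 < w * u * v := by positivity
          nlinarith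

/-- one even leg -/
theorem lcE {a b c : ℕ} (ha : a % 2 = 1) (hb : b % 2 = 1) (hc : c % 2 = 0) (hc1 : 1 ≤ c)
    (hab : a ≤ b) : LC a b c := by
  have hc2 : 2 ≤ c := by omega
  have hcc : (c + 1) % 2 = 1 := by omega
  have hcn : c ≠ 1 := by omega
  rcases Nat.lt_or_ge b 3 with b3 | b3
  · obtain rfl : b = 1 := by omega
    obtain rfl : a = 1 := by omega
    by_cases h2 : c = 2
    · subst h2
      refine ⟨[2018 / 1000, 258 / 1000], [370 / 1000, 1430 / 1000], ?_, ?_⟩
      · refine pqm2 _ _ _ _ _ (by norm_num) (by norm_num) (by norm_num) (by norm_num) ?_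
        have : Lt 1 1 2 = 475 := by decide
        rw [this]; norm_num
      · intro s hs hs1
        have hy0 : (0 : ℝ) < s ^ 2 := by positivity
        have hy1 : s ^ 2 < 1 := by nlinarith
        have h := qq2 hs (l112 s hs hs1)
        have h2 : (s ^ 2) ^ 2 < 1 := pow_lt_one₀ hy0.le hy1 (by norm_num)
        have h3 : 0 < 1 - (s ^ 2) ^ 2 := by linarith
        refine tr hs hs1 (by positivity) (by positivity) ?_ ?_ h
        · have : 1 + s ^ 2 * ((-s ^ 2) ^ 1 * (-s ^ 2) ^ 1 * (-s ^ 2) ^ 2) = 1 + (s ^ 2) ^ 5 := by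
            ring
          rw [this]; positivity
        · apply le_of_eq; ring
    · have hc4 : 4 ≤ c := by omega
      refine ⟨[1667 / 1000, 142 / 1000], [234 / 1000, 1063 / 1000], ?_, ?_⟩
      · refine pqm2 _ _ _ _ _ (by norm_num) (by norm_num) (by norm_num) (by norm_num) ?_
        have : Lt 1 1 c = 510 := by simp [Lt, hcn, hcc, h2]
        rw [this]; norm_num
      · intro s hs hs1
        have hy0 : (0 : ℝ) < s ^ 2 := by positivity
        have hy1 : s ^ 2 < 1 := by nlinarith
        have h := qq2 hs (l11e s hs hs1)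
        have h2 : (s ^ 2) ^ 4 < 1 := pow_lt_one₀ hy0.le hy1 (by norm_num)
        have h3 : 0 < 1 - (s ^ 2) ^ 4 := by linarith
        have hv := vpos hs c
        have hv1 := vle' hs hs1 hc4
        rw [pev hc, pow_one]
        generalize (s ^ 2) ^ c = v at hv hv1
        have e : 1 + s ^ 2 * (-s ^ 2 * -s ^ 2 * v) = 1 + (s ^ 2) ^ 3 * v := by ring
        refine tr hs hs1 (by positivity) (by positivity) ?_ ?_ h
        · rw [e]; positivity
        · rw [e, ← sub_nonneg]
          have : (1 + (s ^ 2) ^ 7) * ((1 - -s ^ 2) * (1 - -s ^ 2) * (1 - v)) -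
              (1 + s ^ 2) ^ 2 * (1 - (s ^ 2) ^ 4) * (1 + (s ^ 2) ^ 3 * v) =
              (1 + s ^ 2) ^ 2 * (((s ^ 2) ^ 4 - v) * (1 + (s ^ 2) ^ 3)) := by ring
          rw [this]
          have h5 : 0 ≤ (s ^ 2) ^ 4 - v := by linarith
          positivity
  have hbn : b ≠ 1 := by omega
  have hbb : (b + 1) % 2 = 0 := by omega
  rcases Nat.lt_or_ge a 3 with a3 | a3
  · obtain rfl : a = 1 := by omega
    refine ⟨[2350 / 1000, 311 / 1000], [1865 / 1000, 395 / 1000], ?_, ?_⟩
    · refine pqm2 _ _ _ _ _ (by norm_num) (by norm_num) (by norm_num) (by norm_num) ?_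
      have : Lt 1 b c = 400 := by simp [Lt, hcn, hcc, hbn, hbb]
      rw [this]; norm_num
    · intro s hs hs1
      have hy0 : (0 : ℝ) < s ^ 2 := by positivity
      have hy1 : s ^ 2 < 1 := by nlinarith
      have h := qq2 hs (l1oe s hs hs1)
      have h2 : (s ^ 2) ^ 2 < 1 := pow_lt_one₀ hy0.le hy1 (by norm_num)
      have h3 : 0 < 1 - (s ^ 2) ^ 2 := by linarith
      have hv := vpos hs c
      have hv1 := vle' hs hs1 hc2
      have hu := vpos hs b
      have hu1 := vle hs hs1 b
      rw [pev hc, podd hb, pow_one]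
      generalize (s ^ 2) ^ c = v at hv hv1
      generalize (s ^ 2) ^ b = u at hu hu1
      have e : 1 + s ^ 2 * (-s ^ 2 * -u * v) = 1 + u * ((s ^ 2) ^ 2 * v) := by ring
      refine tr hs hs1 (by positivity) one_pos ?_ ?_ h
      · rw [e]; positivity
      · rw [e]
        have h5 : 0 ≤ (1 + s ^ 2) := by positivity
        have e2 : (1 + s ^ 2) * (1 - (s ^ 2) ^ 2) * (1 + u * ((s ^ 2) ^ 2 * v)) =
          (1 + s ^ 2) * ((1 + u * ((s ^ 2) ^ 2 * v)) * (1 - (s ^ 2) ^ 2)) := by ring
        have e3 : 1 * ((1 - -s ^ 2) * (1 - -u) * (1 - v)) = (1 + s ^ 2) * ((1 + u) * (1 - v)) := by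
          ring
        rw [e2, e3]
        apply mul_le_mul_of_nonneg_left _ h5
        have h6 : (s ^ 2) ^ 2 * v ≤ 1 := by nlinarith
        apply mul_le_mul _ (by linarith) h3.le (by positivity)
        nlinarith
  · refine ⟨[2528 / 1000, 532 / 1000], [2065 / 1000, 654 / 1000], ?_, ?_⟩
    · refine pqm2 _ _ _ _ _ (by norm_num) (by norm_num) (by norm_num) (by norm_num) ?_
      have han : a ≠ 1 := by omega
      have haa : (a + 1) % 2 = 0 := by omega
      have : Lt a b c = 340 := by simp [Lt, hcn, hcc, hbn, hbb, han, haa]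
      rw [this]; norm_num
    · intro s hs hs1
      have hy0 : (0 : ℝ) < s ^ 2 := by positivity
      have hy1 : s ^ 2 < 1 := by nlinarith
      have h := qq2 hs (looe s hs hs1)
      have h2 : (s ^ 2) ^ 2 < 1 := pow_lt_one₀ hy0.le hy1 (by norm_num)
      have h3 : 0 < 1 - (s ^ 2) ^ 2 := by linarith
      have hv := vpos hs c
      have hv1 := vle' hs hs1 hc2
      have hu := vpos hs b
      have hu1 := vle hs hs1 b
      have hw := vpos hs a
      have hw1 := vle hs hs1 a
      rw [pev hc, podd hb, podd ha]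
      generalize (s ^ 2) ^ c = v at hv hv1
      generalize (s ^ 2) ^ b = u at hu hu1
      generalize (s ^ 2) ^ a = w at hw hw1
      have e : 1 + s ^ 2 * (-w * -u * v) = 1 + w * u * (s ^ 2 * v) := by ring
      refine tr hs hs1 h3.le one_pos ?_ ?_ h
      · rw [e]; positivity
      · rw [e, mul_comm (1 - (s ^ 2) ^ 2), one_mul]
        have e3 : (1 - -w) * (1 - -u) * (1 - v) = ((1 + w) * (1 + u)) * (1 - v) := by
          ring
        rw [e3]
        have h6 : s ^ 2 * v ≤ 1 := by nlinarith
        have h7 : 0 < w * u := by positivity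
        apply mul_le_mul _ (by linarith) h3.le (by positivity)
        nlinarith

/-- two even legs -/
theorem lcX {a b c : ℕ} (ha : a % 2 = 0) (hb : b % 2 = 0) (ha1 : 1 ≤ a) (hb1 : 1 ≤ b)
    (hc1 : 1 ≤ c) : LC a b c := by
  have haa : (a + 1) % 2 = 1 := by omega
  have hbb : (b + 1) % 2 = 1 := by omega
  have ha2 : 2 ≤ a := by omega
  have hb2 : 2 ≤ b := by omega
  refine ⟨[900 / 1000, 2345 / 1000], [1463 / 1000, 1480 / 1000], ?_, ?_⟩
  · refine pqm2 _ _ _ _ _ (by norm_num) (by norm_num) (by norm_num) (by norm_num) ?_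
    have : Lt a b c = 300 := by
      simp only [Lt, haa, hbb]
      rw [if_neg (by omega), if_neg (by omega)]
    rw [this]; norm_num
  · intro s hs hs1
    have hy0 : (0 : ℝ) < s ^ 2 := by positivity
    have hy1 : s ^ 2 < 1 := by nlinarith
    have h := qq2 hs (lxxx s hs hs1)
    have h2 : (s ^ 2) ^ 2 < 1 := pow_lt_one₀ hy0.le hy1 (by norm_num)
    have h3 : 0 < 1 - (s ^ 2) ^ 2 := by linarith
    have hv := vpos hs c
    have hu := vpos hs b
    have hu1 := vle' hs hs1 hb2
    have hw := vpos hs a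
    have hw1 := vle' hs hs1 ha2
    rw [pev hb, pev ha]
    rcases Nat.mod_two_eq_zero_or_one c with ec | oc
    · have hv1 := vle' hs hs1 (show 2 ≤ c by omega)
      rw [pev ec]
      generalize (s ^ 2) ^ c = v at hv hv1
      generalize (s ^ 2) ^ b = u at hu hu1
      generalize (s ^ 2) ^ a = w at hw hw1
      have h8 : w * u * v ≤ (s ^ 2) ^ 2 * (s ^ 2) ^ 2 * (s ^ 2) ^ 2 :=
        mul_le_mul (mul_le_mul hw1 hu1 hu.le (by positivity)) hv1 hv.le (by positivity)
      have h9 : s ^ 2 * (w * u * v) ≤ (s ^ 2) ^ 7 := by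
        have := mul_le_mul_of_nonneg_left h8 hy0.le
        calc _ ≤ _ := this
          _ = (s ^ 2) ^ 7 := by ring
      refine tr hs hs1 (by positivity) (by positivity) (by positivity) ?_ h
      have e : (1 - (s ^ 2) ^ 2) ^ 3 * (1 + s ^ 2 * (w * u * v)) =
        (1 + s ^ 2 * (w * u * v)) * ((1 - (s ^ 2) ^ 2) * (1 - (s ^ 2) ^ 2) * (1 - (s ^ 2) ^ 2)) := by
        ring
      rw [e]
      apply mul_le_mul (by linarith) _ (by positivity) (by positivity)
      apply mul_le_mul _ (by linarith) h3.le
      · exact mul_nonneg (by linarith) (by linarith)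
      · exact mul_le_mul (by linarith) (by linarith) h3.le (by linarith)
    · have hv1 := vle hs hs1 c
      rw [podd oc]
      generalize (s ^ 2) ^ c = v at hv hv1
      generalize (s ^ 2) ^ b = u at hu hu1
      generalize (s ^ 2) ^ a = w at hw hw1
      have hp := prod_lt hy0 hy1 hw (hw1.trans h2.le) hu (hu1.trans h2.le) hv hv1
      have hp0 : 0 < s ^ 2 * (w * u * v) := by positivity
      have e0 : 1 + s ^ 2 * (w * u * -v) = 1 - s ^ 2 * (w * u * v) := by ring
      have h7 : 0 < (s ^ 2) ^ 7 := by positivity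
      refine tr hs hs1 (by positivity) (by positivity) (by rw [e0]; linarith) ?_ h
      have e : (1 - (s ^ 2) ^ 2) ^ 3 * (1 + s ^ 2 * (w * u * -v)) =
        (1 + s ^ 2 * (w * u * -v)) * ((1 - (s ^ 2) ^ 2) * (1 - (s ^ 2) ^ 2) * (1 - (s ^ 2) ^ 2)) := by
        ring
      rw [e, e0]
      apply mul_le_mul (by linarith) _ (by positivity) (by positivity)
      apply mul_le_mul _ (by nlinarith) h3.le
      · exact mul_nonneg (by linarith) (by linarith)
      · exact mul_le_mul (by linarith) (by linarith) h3.le (by linarith)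

theorem lcAll (a b c : ℕ) (ha : 1 ≤ a) (hb : 1 ≤ b) (hc : 1 ≤ c) : LC a b c := by
  rcases Nat.mod_two_eq_zero_or_one a with ea | oa <;>
  rcases Nat.mod_two_eq_zero_or_one b with eb | ob <;>
  rcases Nat.mod_two_eq_zero_or_one c with ec | oc
  · exact lcX ea eb ha hb hc
  · exact lcX ea eb ha hb hc
  · exact LC23 (lcX ea ec ha hc hb)
  · -- even odd odd
    apply LC12; apply LC23
    rcases le_total b c with h | h
    · exact lcE ob oc ea ha h
    · exact LC12 (lcE oc ob ea ha h)
  · -- odd even even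
    apply LC12; apply LC23
    exact lcX eb ec hb hc ha
  · -- odd even odd
    apply LC23
    rcases le_total a c with h | h
    · exact lcE oa oc eb hb h
    · exact LC12 (lcE oc oa eb hb h)
  · -- odd odd even
    rcases le_total a b with h | h
    · exact lcE oa ob ec hc h
    · exact LC12 (lcE ob oa ec hc h)
  · -- odd odd odd
    rcases le_total a b with h1 | h1 <;> rcases le_total b c with h2 | h2 <;>
      rcases le_total a c with h3 | h3
    · exact lcO oa ob oc h1 h2
    · exact lcO oa ob oc h1 h2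
    · exact LC23 (lcO oa oc ob h3 h2)
    · apply LC23; apply LC12
      exact lcO oc oa ob h3 h1
    · apply LC12
      exact lcO ob oa oc h1 h3
    · apply LC12; apply LC23
      exact lcO ob oc oa h2 h3
    · apply LC12; apply LC23; apply LC12
      exact lcO oc ob oa h2 h1
    · apply LC12; apply LC23; apply LC12
      exact lcO oc ob oa h2 h1

theorem last : S_LAST := by
  intro a b c ha hb hc
  exact lcAll a b c ha hb hc

end Pool.W39.LE.PC
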