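import Pool.Agent.W39.LE.Defs

/-!
Reflective positivity checker for polynomials (nested coefficient lists).
-/

set_option autoImplicit false

namespace Pool.W39.LE.PC

/-- computable ring operations -/
class Rg (R : Type) where
  zero : R
  add : R → R → R
  mul : R → R → R
  ofInt : ℤ → R

instance : Rg ℤ := ⟨0, fun a b => a + b, fun a b => a * b, fun n => n⟩
noncomputable instance : Rg ℝ := ⟨0, fun a b => a + b, fun a b => a * b, fun n => (n : ℝ)⟩

variable {R : Type}

def ladd [Rg R] : List R → List R → List R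
  | [], b => b
  | x :: a, [] => x :: a
  | x :: a, y :: b => Rg.add x y :: ladd a b

def lsm [Rg R] (c : R) : List R → List R
  | [] => []
  | x :: a => Rg.mul c x :: lsm c a

def lmul [Rg R] : List R → List R → List R
  | [], _ => []
  | x :: a, b => ladd (lsm x b) (Rg.zero :: lmul a b)

instance [Rg R] : Rg (List R) := ⟨[], ladd, lmul, fun n => [Rg.ofInt n]⟩

structure Hom [Rg R] (φ : R → ℝ) : Prop where
  zero : φ Rg.zero = 0
  add : ∀ a b, φ (Rg.add a b) = φ a + φ b
  mul : ∀ a b, φ (Rg.mul a b) = φ a * φ b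
  ofInt : ∀ n : ℤ, φ (Rg.ofInt n) = n

/-- evaluation of a coefficient list -/
noncomputable def lev (φ : R → ℝ) (v : ℝ) : List R → ℝ
  | [] => 0
  | c :: l => φ c + v * lev φ v l

theorem hom_int : Hom (fun n : ℤ => (n : ℝ)) :=
  ⟨by simp [Rg.zero], by intro a b; simp [Rg.add], by intro a b; simp [Rg.mul],
    by intro a; simp [Rg.ofInt]⟩

theorem lev_ladd [Rg R] {φ : R → ℝ} (h : Hom φ) (v : ℝ) (a b : List R) :
    lev φ v (ladd a b) = lev φ v a + lev φ v b := by
  induction a generalizing b with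
  | nil => simp [ladd, lev]
  | cons x a ih =>
    cases b with
    | nil => simp [ladd, lev]
    | cons y b => simp only [ladd, lev, h.add, ih]; ring

theorem lev_lsm [Rg R] {φ : R → ℝ} (h : Hom φ) (v : ℝ) (c : R) (a : List R) :
    lev φ v (lsm c a) = φ c * lev φ v a := by
  induction a with
  | nil => simp [lsm, lev]
  | cons x a ih => simp only [lsm, lev, h.mul, ih]; ring

theorem lev_lmul [Rg R] {φ : R → ℝ} (h : Hom φ) (v : ℝ) (a b : List R) :
    lev φ v (lmul a b) = lev φ v a * lev φ v b := by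
  induction a with
  | nil => simp [lmul, lev]
  | cons x a ih =>
    rw [lmul, lev_ladd h, lev_lsm h]
    simp only [lev, h.zero, ih]; ring

theorem hom_lev [Rg R] {φ : R → ℝ} (h : Hom φ) (v : ℝ) : Hom (lev φ v) := by
  refine ⟨rfl, lev_ladd h v, lev_lmul h v, ?_⟩
  intro n
  show lev φ v [Rg.ofInt n] = n
  simp [lev, h.ofInt]

/-- homogeneous substitution `y = (a + b w) / (q (1 + w))` -/
def sub1 [Rg R] (a b q : ℤ) : List R → List R × List R
  | [] => ([], [Rg.ofInt 1])
  | c :: l =>
    match sub1 a b q l with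
    | (h, t) =>
      let t' := lmul [Rg.ofInt q, Rg.ofInt q] t
      (ladd (lsm c t') (lmul [Rg.ofInt a, Rg.ofInt b] h), t')

theorem sub1_spec [Rg R] {φ : R → ℝ} (h : Hom φ) (a b q : ℤ) (w y : ℝ)
    (hy : y * (q * (1 + w)) = a + b * w) (l : List R) :
    lev φ w (sub1 a b q l).1 = (q * (1 + w)) ^ l.length * lev φ y l ∧
      lev φ w (sub1 a b q l).2 = (q * (1 + w)) ^ l.length := by
  induction l with
  | nil => simp [sub1, lev, h.ofInt]
  | cons c l ih =>
    obtain ⟨i1, i2⟩ := ih
    have e2 : lev φ w (lmul [Rg.ofInt q, Rg.ofInt q] (sub1 a b q l).2) =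
        (q * (1 + w)) ^ (l.length + 1) := by
      rw [lev_lmul h, i2]
      simp only [lev, h.ofInt]; ring
    constructor
    · show lev φ w (ladd (lsm c (lmul [Rg.ofInt q, Rg.ofInt q] (sub1 a b q l).2))
        (lmul [Rg.ofInt a, Rg.ofInt b] (sub1 a b q l).1)) = _
      rw [lev_ladd h, lev_lsm h, e2, lev_lmul h, i1]
      simp only [lev, h.ofInt, List.length_cons]
      have : (a : ℝ) + w * (b + w * 0) = y * (q * (1 + w)) := by rw [hy]; ring
      rw [this]; ring
    · exact e2

/-- all coefficients pass the test -/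
def allok (ok : R → Bool) : List R → Bool
  | [] => true
  | c :: l => ok c && allok ok l

theorem allok_spec {φ : R → ℝ} {ok : R → Bool} (hok : ∀ r, ok r = true → 0 ≤ φ r) {v : ℝ}
    (hv : 0 ≤ v) (l : List R) (h : allok ok l = true) : 0 ≤ lev φ v l := by
  induction l with
  | nil => simp [lev]
  | cons c l ih =>
    simp only [allok, Bool.and_eq_true] at h
    have := hok c h.1
    have := ih h.2
    simp only [lev]
    positivity

/-- `(1 + w) p - prev`, first coefficient `prev` already used -/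
def aux [Rg R] : R → List R → List R
  | prev, [] => [prev]
  | prev, x :: l => Rg.add prev x :: aux x l

/-- `(1 + w) p + c` -/
def stp [Rg R] (c : R) : List R → List R
  | [] => [c]
  | x :: l => Rg.add x c :: aux x l

def shf [Rg R] : List R → List R → List R
  | p, [] => p
  | p, c :: l => shf (stp c p) l

theorem aux_spec [Rg R] {φ : R → ℝ} (h : Hom φ) (w : ℝ) (l : List R) (x : R) :
    w * lev φ w (aux x l) = w * φ x + (w + w ^ 2) * lev φ w l := by
  induction l generalizing x with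
  | nil => simp only [aux, lev]; ring
  | cons y l ih =>
    have := ih y
    simp only [aux, lev, h.add]
    linear_combination w * this

theorem stp_spec [Rg R] {φ : R → ℝ} (h : Hom φ) (w : ℝ) (c : R) (p : List R) :
    lev φ w (stp c p) = (1 + w) * lev φ w p + φ c := by
  cases p with
  | nil => simp only [stp, lev]; ring
  | cons x l =>
    have := aux_spec h w l x
    simp only [stp, lev, h.add]
    linear_combination this

theorem shf_spec [Rg R] {φ : R → ℝ} (h : Hom φ) (w y : ℝ) (hy : y * (1 + w) = 1) (l p : List R) :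
    (1 + w) * lev φ w (shf p l) = (1 + w) ^ l.length * ((1 + w) * lev φ w p + lev φ y l) := by
  induction l generalizing p with
  | nil => simp only [shf, lev, List.length_nil]; ring
  | cons c l ih =>
    rw [shf, ih, stp_spec h]
    simp only [lev, List.length_cons]
    have : lev φ y l = (1 + w) * (y * lev φ y l) := by linear_combination (- lev φ y l) * hy
    rw [pow_succ]
    linear_combination (1 + w) ^ l.length * this

/-- nonnegative for all `v ∈ (0, 1]` -/
def okU [Rg R] (ok : R → Bool) (l : List R) : Bool := allok ok (shf [] l)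

theorem okU_spec [Rg R] {φ : R → ℝ} (h : Hom φ) {ok : R → Bool}
    (hok : ∀ r, ok r = true → 0 ≤ φ r) {v : ℝ} (hv : 0 < v) (hv1 : v ≤ 1) (l : List R)
    (hl : okU ok l = true) : 0 ≤ lev φ v l := by
  have hw : 0 ≤ 1 / v - 1 := by
    rw [sub_nonneg, le_div_iff₀ hv]; linarith
  have hy : v * (1 + (1 / v - 1)) = 1 := by field_simp; simp
  have h1 := shf_spec h (1 / v - 1) v hy l []
  have h2 := allok_spec (φ := φ) hok hw _ hl
  have h4 : 0 < 1 + (1 / v - 1) := by linarith
  have h3 : (0 : ℝ) < (1 + (1 / v - 1)) ^ l.length := pow_pos h4 _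
  have h5 : 0 ≤ (1 + (1 / v - 1)) ^ l.length * lev φ v l := by
    have : (1 + (1 / v - 1)) * lev φ (1 / v - 1) ([] : List R) = 0 := by simp [lev]
    rw [this, zero_add] at h1
    rw [← h1]
    exact mul_nonneg h4.le h2
  exact nonneg_of_mul_nonneg_right h5 h3

def okInt (n : ℤ) : Bool := decide (0 ≤ n)

/-- nonnegative on the intervals `[a/q, b/q)` of the list -/
def okY0 (ivs : List (ℤ × ℤ × ℤ)) (l : List ℤ) : Bool :=
  ivs.all fun p => allok okInt (sub1 p.1 p.2.1 p.2.2 l).1

/-- first try the whole interval, then the subdivision -/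
def okY (ivs : List (ℤ × ℤ × ℤ)) (l : List ℤ) : Bool :=
  cond (okU okInt l) true (okY0 ivs l)

theorem okY0_spec {ivs : List (ℤ × ℤ × ℤ)} {l : List ℤ} (h : okY0 ivs l = true) {y : ℝ}
    (hy : ∃ p ∈ ivs, (0 : ℝ) < p.2.2 ∧ (p.1 : ℝ) ≤ p.2.2 * y ∧ p.2.2 * y < p.2.1) :
    0 ≤ lev (fun n : ℤ => (n : ℝ)) y l := by
  obtain ⟨⟨a, b, q⟩, hp, hq, h1, h2⟩ := hy
  have hc := (List.all_eq_true.mp h) _ hp
  simp only at hq h1 h2 hc
  set w : ℝ := (q * y - a) / (b - q * y) with hw
  have hd : 0 < (b : ℝ) - q * y := by linarith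
  have hw0 : 0 ≤ w := div_nonneg (by linarith) hd.le
  have hab : (a : ℝ) < b := by linarith
  have e : y * (q * (1 + w)) = a + b * w := by
    have hd' : (b : ℝ) - q * y ≠ 0 := hd.ne'
    have hw2 : w * (b - q * y) = q * y - a := by rw [hw]; field_simp
    linear_combination (-1 : ℝ) * hw2
  have g1 := (sub1_spec hom_int a b q w y e l).1
  have g2 : 0 ≤ lev (fun n : ℤ => (n : ℝ)) w (sub1 a b q l).1 :=
    allok_spec (φ := fun n : ℤ => (n : ℝ)) (by
      intro r hr; simp only [okInt, decide_eq_true_eq] at hr; exact_mod_cast hr) hw0 _ hc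
  rw [g1] at g2
  have h3 : (0 : ℝ) < (q * (1 + w)) ^ l.length := pow_pos (by positivity) _
  exact nonneg_of_mul_nonneg_right g2 h3

theorem okY_spec {ivs : List (ℤ × ℤ × ℤ)} {l : List ℤ} (h : okY ivs l = true) {y : ℝ}
    (hy0 : 0 < y) (hy1 : y < 1)
    (hy : ∃ p ∈ ivs, (0 : ℝ) < p.2.2 ∧ (p.1 : ℝ) ≤ p.2.2 * y ∧ p.2.2 * y < p.2.1) :
    0 ≤ lev (fun n : ℤ => (n : ℝ)) y l := by
  unfold okY at h
  cases hc : okU okInt l with
  | true =>
    exact okU_spec hom_int (by
      intro r hr; simp only [okInt, decide_eq_true_eq] at hr; exact_mod_cast hr) hy0 hy1.le l hc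
  | false =>
    rw [hc] at h
    exact okY0_spec h hy

abbrev R1 := List ℤ
abbrev R2 := List R1
abbrev R3 := List R2
abbrev R4 := List R3

/-- evaluation: `e` outermost, then `α`, `β`, innermost `y` -/
noncomputable def ev4 (e al be y : ℝ) : R4 → ℝ :=
  lev (lev (lev (lev (fun n : ℤ => (n : ℝ)) y) be) al) e

theorem hom4 (e al be y : ℝ) : Hom (ev4 e al be y) :=
  hom_lev (hom_lev (hom_lev (hom_lev hom_int y) be) al) e

def ok4 (ivs : List (ℤ × ℤ × ℤ)) (F : R4) : Bool := allok (okU (okU (okY ivs))) F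

theorem ok4_spec {ivs : List (ℤ × ℤ × ℤ)} {F : R4} (h : ok4 ivs F = true) {e al be y : ℝ}
    (he : 0 ≤ e) (ha : 0 < al) (ha1 : al ≤ 1) (hb : 0 < be) (hb1 : be ≤ 1)
    (hy0 : 0 < y) (hy1 : y < 1)
    (hy : ∃ p ∈ ivs, (0 : ℝ) < p.2.2 ∧ (p.1 : ℝ) ≤ p.2.2 * y ∧ p.2.2 * y < p.2.1) :
    0 ≤ ev4 e al be y F := by
  refine allok_spec (φ := lev (lev (lev (fun n : ℤ => (n : ℝ)) y) be) al) ?_ he F h
  intro r hr
  refine okU_spec (hom_lev (hom_lev hom_int y) be) ?_ ha ha1 r hr
  intro r hr
  refine okU_spec (hom_lev hom_int y) ?_ hb hb1 r hr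
  intro r hr
  exact okY_spec hr hy0 hy1 hy

/-- variables -/
def vy : R4 := [[[[0, 1]]]]
def vb : R4 := [[[[], [1]]]]
def va : R4 := [[[], [[1]]]]
def ve : R4 := [[], [[[1]]]]
def cy (l : List ℤ) : R4 := [[[l]]]

theorem ev_vy (e al be y : ℝ) : ev4 e al be y vy = y := by simp [ev4, vy, lev]
theorem ev_vb (e al be y : ℝ) : ev4 e al be y vb = be := by simp [ev4, vb, lev]
theorem ev_va (e al be y : ℝ) : ev4 e al be y va = al := by simp [ev4, va, lev]
theorem ev_ve (e al be y : ℝ) : ev4 e al be y ve = e := by simp [ev4, ve, lev]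
theorem ev_cy (e al be y : ℝ) (l : List ℤ) :
    ev4 e al be y (cy l) = lev (fun n : ℤ => (n : ℝ)) y l := by simp [ev4, cy, lev]

end Pool.W39.LE.PC
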