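import Pool.Agent.W39.LE.PC

set_option autoImplicit false

namespace Pool.W39.LE.PC

open Pool.W39.LE Rg

section
variable {R : Type} [Rg R]

def sb (a b : R) : R := add a (mul (ofInt (-1)) b)

def fK (y A B : R) : R := add (ofInt 1) (mul y (mul A B))
def fN (A B : R) : R := mul (sb (ofInt 1) A) (sb (ofInt 1) B)
def fP (A B : R) : R := sb (ofInt 1) (mul A B)
def fq (y A B D : R) : R :=
  add (mul (sb (ofInt 1) y) (fK y A B)) (mul (mul D y) (fP A B))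
def fW (y A B D : R) : R :=
  add (add
    (mul (mul (mul y (sb (ofInt 1) y)) (add (add (mul D D) (mul (ofInt (-3)) D)) (ofInt 4)))
      (mul (fK y A B) (fK y A B)))
    (mul (sb (ofInt 1) y) (mul (fq y A B D) (fq y A B D))))
    (mul (mul (mul (ofInt 2) D) (mul y y)) (mul (fP A B) (fK y A B)))
def fL (y A B D : R) : R :=
  mul (mul (mul (sb (ofInt 1) y) y) (mul D (fN A B)))
    (add (add
      (mul (sb (mul (ofInt 2) (mul (add (ofInt 1) y) (add (ofInt 1) y)))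
        (mul (ofInt 4) (mul D y))) (fK y A B))
      (mul (mul (ofInt 2) (mul D y)) (mul (sb (ofInt 1) y) (fP A B))))
      (mul (mul D y) (mul (add (ofInt 1) y) (fN A B))))

/-- the polynomial whose positivity gives `StepOK` -/
def FF (c : ℤ) (y A B D TN TM ND MD mu : R) : R :=
  sb
    (mul (ofInt (4 * c)) (mul mu (add
      (mul (sb (mul TM MD) (mul TN ND)) (mul (add (ofInt 1) y) (fW y A B D)))
      (mul (mul TM MD) (fL y A B D)))))
    (mul (mul y (mul (add (ofInt 1) y) (add (ofInt 1) y)))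
      (mul (mul D (mul (fN A B) (fK y A B)))
        (mul (add (mul (ofInt (c * c)) (mul y TN)) (mul (mul mu mu) TM)) (add ND MD))))

theorem FF_hom {φ : R → ℝ} (h : Hom φ) (c : ℤ) (y A B D TN TM ND MD mu : R) :
    φ (FF c y A B D TN TM ND MD mu) =
      FF c (φ y) (φ A) (φ B) (φ D) (φ TN) (φ TM) (φ ND) (φ MD) (φ mu) := by
  have e1 : ∀ a b : ℝ, Rg.add a b = a + b := fun _ _ => rfl
  have e2 : ∀ a b : ℝ, Rg.mul a b = a * b := fun _ _ => rfl
  have e3 : ∀ n : ℤ, (Rg.ofInt n : ℝ) = (n : ℝ) := fun _ => rfl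
  simp only [FF, fW, fL, fq, fN, fP, fK, sb, h.add, h.mul, h.ofInt, e1, e2, e3]

end

theorem core_id (c s K N P D TN TM ND MD mu : ℝ) (hc : c ≠ 0) (hs : s ≠ 0) (hs1 : 1 + s ^ 2 ≠ 0)
    (hK : K ≠ 0) (hTM : TM ≠ 0) (hMD : MD ≠ 0) (hmu : mu ≠ 0) :
    4 * c * mu * TM * MD * s ^ 3 * (1 + s ^ 2) * K ^ 2 *
      ((1 - TN * ND / (TM * MD)) * WW ((1 - s ^ 2) / s) D (s * P / K) +
        ((1 - s ^ 2) / s) * D * (s ^ 2 * N / ((1 + s ^ 2) * K)) *
          (2 * (4 + ((1 - s ^ 2) / s) ^ 2) - 4 * D + 2 * D * (s * P / K) * ((1 - s ^ 2) / s) +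
            D * ((4 + ((1 - s ^ 2) / s) ^ 2) * (s ^ 2 * N / ((1 + s ^ 2) * K)))) -
        (s ^ 2 * TN / ((mu / c) * TM) + mu / c) / (2 * s) * ((ND + MD) / (2 * MD)) *
          (D * ((4 + ((1 - s ^ 2) / s) ^ 2) * (s ^ 2 * N / ((1 + s ^ 2) * K))))) =
    4 * c * (mu * ((TM * MD - TN * ND) * ((1 + s ^ 2) *
        (s ^ 2 * (1 - s ^ 2) * (D * D - 3 * D + 4) * (K * K) +
          (1 - s ^ 2) * (((1 - s ^ 2) * K + D * s ^ 2 * P) * ((1 - s ^ 2) * K + D * s ^ 2 * P)) +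
          2 * D * (s ^ 2 * s ^ 2) * (P * K))) +
      TM * MD * ((1 - s ^ 2) * s ^ 2 * (D * N) *
        ((2 * ((1 + s ^ 2) * (1 + s ^ 2)) - 4 * (D * s ^ 2)) * K +
          2 * (D * s ^ 2) * ((1 - s ^ 2) * P) + D * s ^ 2 * ((1 + s ^ 2) * N))))) -
    s ^ 2 * ((1 + s ^ 2) * (1 + s ^ 2)) * (D * (N * K) *
      ((c * c * (s ^ 2 * TN) + mu * mu * TM) * (ND + MD))) := by
  have h4 : 4 + ((1 - s ^ 2) / s) ^ 2 = (1 + s ^ 2) ^ 2 / s ^ 2 := by field_simp; ring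
  have hd : (1 + s ^ 2) ^ 2 / s ^ 2 * (s ^ 2 * N / ((1 + s ^ 2) * K)) = (1 + s ^ 2) * N / K := by
    field_simp
  rw [h4, hd]
  simp only [WW]
  field_simp
  ring

theorem step_of_FF (c : ℤ) (s A B D TN TM ND MD mu : ℝ) (hc : 0 < c) (hs : 0 < s) (hs1 : s < 1)
    (hK : 0 < 1 + s ^ 2 * (A * B)) (hD : 0 < D) (hTM : 0 < TM)
    (hMD : 0 < MD) (hTN : 0 ≤ TN) (hND : 0 ≤ ND) (hmu : 0 < mu)
    (hF : 0 ≤ FF c (s ^ 2) A B D TN TM ND MD mu) :
    StepOK (xs s) D (dls s A B) (ets s A B) ((TN * ND) / (TM * MD)) := by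
  have hc' : (0 : ℝ) < c := by exact_mod_cast hc
  refine ⟨(s ^ 2 * TN / ((mu / c) * TM) + mu / c) / (2 * s) * ((ND + MD) / (2 * MD)), ?_, ?_, ?_⟩
  · positivity
  · have h1 : TN / TM ≤ ((s ^ 2 * TN / ((mu / c) * TM) + mu / c) / (2 * s)) ^ 2 := by
      have : ((s ^ 2 * TN / ((mu / c) * TM) + mu / c) / (2 * s)) ^ 2 - TN / TM =
          ((s ^ 2 * TN / ((mu / c) * TM) - mu / c) / (2 * s)) ^ 2 := by
        field_simp; ring
      nlinarith [sq_nonneg ((s ^ 2 * TN / ((mu / c) * TM) - mu / c) / (2 * s))]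
    have h2 : ND / MD ≤ ((ND + MD) / (2 * MD)) ^ 2 := by
      have : ((ND + MD) / (2 * MD)) ^ 2 - ND / MD = ((ND - MD) / (2 * MD)) ^ 2 := by
        field_simp; ring
      nlinarith [sq_nonneg ((ND - MD) / (2 * MD))]
    calc TN * ND / (TM * MD) = (TN / TM) * (ND / MD) := by field_simp
      _ ≤ ((s ^ 2 * TN / ((mu / c) * TM) + mu / c) / (2 * s)) ^ 2 * ((ND + MD) / (2 * MD)) ^ 2 :=
        mul_le_mul h1 h2 (by positivity) (by positivity)
      _ = _ := by ring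
  · have hZ : 0 < 4 * c * mu * TM * MD * s ^ 3 * (1 + s ^ 2) * (1 + s ^ 2 * (A * B)) ^ 2 := by
      positivity
    rw [← sub_nonneg]
    refine nonneg_of_mul_nonneg_right ?_ hZ
    have e1 : ∀ a b : ℝ, Rg.add a b = a + b := fun _ _ => rfl
    have e2 : ∀ a b : ℝ, Rg.mul a b = a * b := fun _ _ => rfl
    have e3 : ∀ n : ℤ, (Rg.ofInt n : ℝ) = (n : ℝ) := fun _ => rfl
    have hid := core_id c s (1 + s ^ 2 * (A * B)) ((1 - A) * (1 - B)) (1 - A * B) D TN TM ND MD mu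
      hc'.ne' hs.ne' (by positivity) hK.ne' hTM.ne' hMD.ne' hmu.ne'
    simp only [xs, dls, ets]
    rw [hid]
    simp only [FF, fW, fL, fq, fN, fP, fK, sb, e1, e2, e3] at hF
    push_cast at hF
    refine le_of_le_of_eq hF ?_
    ring

def pcst (n : ℤ) : R4 := Rg.ofInt n

/-- `10^6 ((1-y)^2 + p^2 y)`, `p = k/1000` -/
def fc (k : ℤ) : R4 := cy [1000000, -2000000 + k * k, 1000000]

/-- the same with `p = k/1000 + e` -/
def fe (k : ℤ) : R4 :=
  add (cy [1000000, -2000000, 1000000])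
    (mul vy (mul (add (pcst k) (mul (pcst 1000) ve)) (add (pcst k) (mul (pcst 1000) ve))))

/-- `-y`, `-y^3 α`, `-y^3 β`, `y^2 α`, `y^2 β`, `-y β` -/
def A1 : R4 := cy [0, -1]
def A3 : R4 := mul (cy [0, 0, 0, -1]) va
def B3 : R4 := mul (cy [0, 0, 0, -1]) vb
def A2 : R4 := mul (cy [0, 0, 1]) va
def B2 : R4 := mul (cy [0, 0, 1]) vb
def B1 : R4 := mul (cy [0, -1]) vb

end Pool.W39.LE.PC
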