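import Pool.Agent.W39.LE.Defs

set_option autoImplicit false

namespace Pool.W39.LE

open Complex BT

/-! ### analysis -/

/-- comparison of sums from a comparison of products -/
def S_AN : Prop :=
  ∀ A B : Multiset ℝ, Multiset.card A = Multiset.card B → (∀ a ∈ A, 0 ≤ a) → (∀ b ∈ B, 0 ≤ b) →
    (∀ x : ℝ, 0 < x → (B.map (fun b => x ^ 2 + b ^ 2)).prod ≤ (A.map (fun a => x ^ 2 + a ^ 2)).prod) →
    B.sum ≤ A.sum

def S_DISC : Prop :=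
  ∀ x D d e R : ℝ, 0 < x → 0 < D → 0 < d → 0 ≤ e → 0 ≤ R → StepOK x D d e R →
    ∀ h : ℂ, Adm x D h →
      R * normSq (zx x + h * (1 - I * e)) ≤ normSq (zx x + h * (1 - I * e - zx x * d))

def S_ADD : Prop :=
  ∀ (x D1 D2 : ℝ) (h1 h2 : ℂ), 0 < x → 0 < D1 → 0 < D2 → Adm x D1 h1 → Adm x D2 h2 →
    Adm x (D1 + D2) (h1 + h2)

def S_CTX : Prop :=
  ∀ (x : ℝ) (p q : ℂ), 0 < x → q ≠ 0 → x * normSq q ≤ (p * (starRingEnd ℂ) q).im →
    p - q ≠ 0 ∧ Adm x 1 (-p / (p - q))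

def S_IM : Prop :=
  ∀ (x : ℝ) (t : BT), 0 < x →
    Psi (zx x) t ≠ 0 ∧ x * normSq (Psi (zx x) t) ≤ (Phi (zx x) t * (starRingEnd ℂ) (Psi (zx x) t)).im

/-! ### formulas for paths and spiders -/

def S_MRG : Prop :=
  ∀ (s : ℝ) (a b : ℕ), 0 < s → s < 1 → 1 ≤ a →
    Vs s (a + b + 1) > 0 ∧
    Phi (zx (xs s)) (pth (a + b + 1)) = zx (xs s) * (I ^ (a + b + 1) * Vs s (a + b + 1)) ∧
    Psi (zx (xs s)) (pth (a + b + 1)) =
      I ^ (a + b + 1) * Vs s (a + b + 1) * (1 - I * ets s ((-s ^ 2) ^ a) ((-s ^ 2) ^ (b + 1))) ∧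
    Phi (zx (xs s)) (join (pth a) (pth b)) = zx (xs s) * (I ^ (a + b + 1) * Vs s (a + b + 1)) ∧
    Psi (zx (xs s)) (join (pth a) (pth b)) =
      I ^ (a + b + 1) * Vs s (a + b + 1) *
        (1 - I * ets s ((-s ^ 2) ^ a) ((-s ^ 2) ^ (b + 1)) -
          zx (xs s) * dls s ((-s ^ 2) ^ a) ((-s ^ 2) ^ (b + 1)))

def S_SPI : Prop :=
  ∀ (s : ℝ) (a b c : ℕ), 0 < s → s < 1 →
    Phi (zx (xs s)) (join (join (pth c) (pth a)) (pth b)) =
      Phi (zx (xs s)) (pth (a + b + c + 2)) *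
        (1 - I * zx (xs s) * oms s ((-s ^ 2) ^ (a + 1)) ((-s ^ 2) ^ (b + 1)) ((-s ^ 2) ^ c))

/-! ### polynomial inequalities -/

def S_STEP1 : Prop :=
  ∀ a b : ℕ, 1 ≤ a → 1 ≤ b → ∃ P Q : List ℝ, PQ P Q ((d1 a b : ℝ) / 1000) ∧
    ∀ s : ℝ, 0 < s → s < 1 →
      StepOK (xs s) 1 (dls s ((-s ^ 2) ^ a) ((-s ^ 2) ^ b)) (ets s ((-s ^ 2) ^ a) ((-s ^ 2) ^ b))
        (PR P (xs s) / PR Q (xs s))

def S_STEP2 : Prop :=
  ∀ a b D : ℕ, 1 ≤ a → 1 ≤ b → 2 ≤ D → ∃ P Q : List ℝ, PQ P Q ((d2 a b : ℝ) / 1000) ∧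
    ∀ s : ℝ, 0 < s → s < 1 →
      StepOK (xs s) D (dls s ((-s ^ 2) ^ a) ((-s ^ 2) ^ b)) (ets s ((-s ^ 2) ^ a) ((-s ^ 2) ^ b))
        (PR P (xs s) / PR Q (xs s))

def S_LAST : Prop :=
  ∀ a b c : ℕ, 1 ≤ a → 1 ≤ b → 1 ≤ c → ∃ P Q : List ℝ, PQ P Q ((Lt a b c : ℝ) / 1000) ∧
    ∀ s : ℝ, 0 < s → s < 1 →
      PR P (xs s) ≤ PR Q (xs s) *
        ((1 + xs s * oms s ((-s ^ 2) ^ a) ((-s ^ 2) ^ b) ((-s ^ 2) ^ c)) ^ 2 +
          4 * (oms s ((-s ^ 2) ^ a) ((-s ^ 2) ^ b) ((-s ^ 2) ^ c)) ^ 2)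

/-! ### chain -/

/-- replacing a rooted tree by the path in a context -/
def S_CH : Prop :=
  ∀ (t : BT) (D : ℕ), 1 ≤ D → ∃ P Q : List ℝ, PQ P Q ((G t (decide (2 ≤ D)) : ℝ) / 1000) ∧
    ∀ (x : ℝ) (h : ℂ), 0 < x → Adm x D h →
      PR P x * normSq (Phi (zx x) (pth (t.size - 1)) + h * Psi (zx x) (pth (t.size - 1))) ≤
        PR Q x * normSq (Phi (zx x) t + h * Psi (zx x) t)

/-- the whole tree -/
def S_TB : Prop :=
  ∀ (X : BT) (a b : ℕ), 2 ≤ X.size → ∃ P Q : List ℝ,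
    PQ P Q (((G X true + Lt (a + 1) (b + 1) (X.size - 1) : ℕ) : ℝ) / 1000) ∧
    ∀ x : ℝ, 0 < x →
      PR P x * normSq (Phi (zx x) (pth (X.size + a + b + 1))) ≤
        PR Q x * normSq (Phi (zx x) (join (join X (pth a)) (pth b)))

/-- the star with five vertices -/
def S_K14 : Prop :=
  ∃ P Q : List ℝ, PQ P Q (3 / 2) ∧
    ∀ x : ℝ, 0 < x →
      PR P x * normSq (Phi (zx x) (pth 4)) ≤
        PR Q x * normSq (Phi (zx x) (join (join (join (join leaf leaf) leaf) leaf) leaf))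

/-! ### rerooting -/

def S_RR : Prop :=
  ∀ (C : ℕ → Bool) (t : BT), good C t = false → ∃ (X : BT) (a b : ℕ),
    C (a + 1) = true ∧ C (b + 1) = true ∧ Eqv t (join (join X (pth a)) (pth b))

def S_RP : Prop := ∀ t : BT, good (fun _ => true) t = true → t = pth (t.size - 1)

/-! ### combinatorics -/

/-- both pure arms odd -/
def S_POTA : Prop :=
  ∀ (X : BT) (a b n : ℕ), a % 2 = 0 → b % 2 = 0 → 2 ≤ X.size → n = X.size + a + b + 2 → 6 ≤ n →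
    4000 * (n / 2) ≤ n * (G X true + Lt (a + 1) (b + 1) (X.size - 1)) +
      4000 * nu (join (join X (pth a)) (pth b))

/-- no vertex with two pure odd arms -/
def S_POTB : Prop :=
  ∀ (X : BT) (a b n : ℕ), good (fun k => decide (k % 2 = 1)) (join (join X (pth a)) (pth b)) = true →
    2 ≤ X.size → n = X.size + a + b + 2 → 6 ≤ n →
    4000 * (n / 2) ≤ n * (G X true + Lt (a + 1) (b + 1) (X.size - 1)) +
      4000 * nu (join (join X (pth a)) (pth b))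

/-! ### graphs -/

/-- `(G, r)` is encoded by `t` -/
def Enc {V : Type} [Fintype V] [DecidableEq V] (G : SimpleGraph V) [DecidableRel G.Adj] (r : V)
    (t : BT) : Prop :=
  Fintype.card V = t.size ∧
  (∀ z w : ℂ, (Matrix.scalar V z - G.lapMatrix ℂ + w • Matrix.single r r 1).det =
    Phi z t + w * Psi z t) ∧
  ∃ f : Fin t.nu × Bool → V, Function.Injective f ∧
    (∀ i, G.Adj (f (i, false)) (f (i, true))) ∧ (t.av = true → ∀ p, f p ≠ r)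

/-- cutting a tree at an edge -/
def S_CUT : Prop :=
  ∀ (V : Type) [Fintype V] [DecidableEq V] (G : SimpleGraph V) (r : V), G.IsTree →
    2 ≤ Fintype.card V → ∃ (u : V) (S : Set V), G.Adj r u ∧ r ∈ S ∧ u ∉ S ∧
      (∀ a ∈ S, ∀ b, b ∉ S → G.Adj a b → a = r ∧ b = u) ∧
      (G.induce S).IsTree ∧ (G.induce Sᶜ).IsTree

open Classical in
def S_JOIN : Prop :=
  ∀ (V : Type) [Fintype V] [DecidableEq V] (G : SimpleGraph V) (r u : V) (S : Set V)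
    (hr : r ∈ S) (hu : u ∈ Sᶜ), G.Adj r u →
    (∀ a ∈ S, ∀ b, b ∉ S → G.Adj a b → a = r ∧ b = u) →
    ∀ s t : BT, Enc (G.induce S) ⟨r, hr⟩ s → Enc (G.induce Sᶜ) ⟨u, hu⟩ t → Enc G r (join s t)

open Classical in
def S_LINK : Prop :=
  ∀ (V : Type) [Fintype V] [DecidableEq V] (G : SimpleGraph V) (r : V), G.IsTree →
    ∃ t : BT, Enc G r t

open Classical in
/-- spectrum -/
noncomputable def spec {n : ℕ} (G : SimpleGraph (Fin n)) : Multiset ℝ :=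
  (G.lapMatrix ℝ).charpoly.roots

open Classical in
def S_SPL : Prop :=
  ∀ (n : ℕ) (G : SimpleGraph (Fin n)), Multiset.card (spec G) = n ∧
    ∀ z : ℂ, ((spec G).map (fun m : ℝ => z - (m : ℂ))).prod =
      (Matrix.scalar (Fin n) z - G.lapMatrix ℂ).det

/-- a matching with `k` edges gives `k` eigenvalues `≥ 2` -/
def S_EIG : Prop :=
  ∀ (n k : ℕ) (G : SimpleGraph (Fin n)) (f : Fin k × Bool → Fin n), Function.Injective f →
    (∀ i, G.Adj (f (i, false)) (f (i, true))) →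
    k ≤ Multiset.card ((spec G).filter (fun m => 2 ≤ m))

noncomputable def pm (n j : ℕ) : ℝ := 2 - 2 * Real.cos (Real.pi * j / n)

def S_PSPEC : Prop :=
  ∀ n : ℕ, 1 ≤ n → spec (SimpleGraph.pathGraph n) = (Multiset.range n).map (pm n)

def S_PPHI : Prop :=
  ∀ (n : ℕ) (z : ℂ), 1 ≤ n → Phi z (pth (n - 1)) = ∏ j ∈ Finset.range n, (z - (pm n j : ℂ))

def S_PSH : Prop :=
  ∀ n : ℕ, 1 ≤ n → ∑ j ∈ Finset.range n, |pm n j - (2 - 2 / (n : ℝ))| =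
    (∑ j ∈ Finset.range n, |pm n j - 2|) + 2 / (n : ℝ) * (2 * ((n / 2 : ℕ) : ℝ) - n)

/-- edge numbers -/
def S_EDGE : Prop :=
  ∀ n : ℕ, 1 ≤ n → (SimpleGraph.pathGraph n).IsTree ∧
    ∀ T : SimpleGraph (Fin n), T.IsTree → (Nat.card T.edgeSet : ℝ) = (n : ℝ) - 1

end Pool.W39.LE
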