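import Pool.Agent.W39.LE.SG
import Pool.Agent.W39.LE.Stm
import Pool.Agent.W39.LE.T.C11
import Pool.Agent.W39.LE.T.C13
import Pool.Agent.W39.LE.T.C33
import Pool.Agent.W39.LE.T.Cee
import Pool.Agent.W39.LE.T.Ceo

set_option autoImplicit false

namespace Pool.W39.LE.PC

open Pool.W39.LE Rg

theorem ev_A1 (e al be s : ℝ) : ev4 e al be (s ^ 2) A1 = -s ^ 2 := by
  rw [A1, ev_cy]; simp only [lev]; push_cast; ring

theorem ev_A3 (e al be s : ℝ) : ev4 e al be (s ^ 2) A3 = -((s ^ 2) ^ 3 * al) := by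
  rw [A3, ev_mul, ev_cy, ev_va]; simp only [lev]; push_cast; ring

theorem ev_B3 (e al be s : ℝ) : ev4 e al be (s ^ 2) B3 = -((s ^ 2) ^ 3 * be) := by
  rw [B3, ev_mul, ev_cy, ev_vb]; simp only [lev]; push_cast; ring

theorem ev_A2 (e al be s : ℝ) : ev4 e al be (s ^ 2) A2 = (s ^ 2) ^ 2 * al := by
  rw [A2, ev_mul, ev_cy, ev_va]; simp only [lev]; push_cast; ring

theorem ev_B2 (e al be s : ℝ) : ev4 e al be (s ^ 2) B2 = (s ^ 2) ^ 2 * be := by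
  rw [B2, ev_mul, ev_cy, ev_vb]; simp only [lev]; push_cast; ring

theorem ev_B1 (e al be s : ℝ) : ev4 e al be (s ^ 2) B1 = -(s ^ 2 * be) := by
  rw [B1, ev_mul, ev_cy, ev_vb]; simp only [lev]; push_cast; ring

theorem ev_2e (e al be y : ℝ) : ev4 e al be y (add (pcst 2) ve) = 2 + e := by
  rw [ev_add, ev_pcst, ev_ve]; norm_num

theorem kpos {y A B : ℝ} (hy : 0 < y) (hy1 : y < 1) (hA : |A| ≤ 1) (hB : |B| ≤ 1) :
    0 < 1 + y * (A * B) := by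
  have h1 : |A * B| ≤ 1 := by rw [abs_mul]; exact mul_le_one₀ hA (abs_nonneg _) hB
  have h2 := (abs_le.mp h1).1
  nlinarith

theorem b1 {y : ℝ} (hy : 0 < y) (hy1 : y < 1) : |-y| ≤ 1 := by
  rw [abs_neg, abs_of_pos hy]; exact hy1.le

theorem b2 {y v : ℝ} (k : ℕ) (hy : 0 < y) (hy1 : y < 1) (hv : 0 < v) (hv1 : v ≤ 1) :
    |y ^ k * v| ≤ 1 := by
  rw [abs_of_pos (by positivity)]
  exact mul_le_one₀ (pow_le_one₀ hy.le hy1.le) hv.le hv1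

theorem b3 {y v : ℝ} (k : ℕ) (hy : 0 < y) (hy1 : y < 1) (hv : 0 < v) (hv1 : v ≤ 1) :
    |-(y ^ k * v)| ≤ 1 := by rw [abs_neg]; exact b2 k hy hy1 hv hv1

theorem s11 (s : ℝ) (hs : 0 < s) (hs1 : s < 1) :
    StepOK (xs s) 1 (dls s (-s ^ 2) (-s ^ 2)) (ets s (-s ^ 2) (-s ^ 2))
      (((qv s (0 / 1000) * qv s (2085 / 1000)) * 1) / ((qv s (465 / 1000) * qv s (1510 / 1000)) * 1)) := by
  have hy0 : (0 : ℝ) < s ^ 2 := by positivity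
  have hy : s ^ 2 < 1 := by nlinarith
  refine gen 100 A1 A1 (pcst 1) _ _ (pcst 1) (pcst 1) _ _ cov1 ok11 0 1 1 s (by norm_num)
    le_rfl one_pos le_rfl one_pos le_rfl hs hs1 (ev_A1 _ _ _ _) (ev_A1 _ _ _ _)
    (by rw [ev_pcst]; norm_num)
    (TN' := (qv s (0 / 1000) * qv s (2085 / 1000))) (by rw [ev_mul, ev_fc _ _ _ _ hs, ev_fc _ _ _ _ hs]; push_cast; try ring)
    (TM' := (qv s (465 / 1000) * qv s (1510 / 1000))) (by rw [ev_mul, ev_fc _ _ _ _ hs, ev_fc _ _ _ _ hs]; push_cast; try ring)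
    (by rw [ev_pcst]; norm_num) (by rw [ev_pcst]; norm_num)
    (mu' := ((1 - s ^ 2) * (8 + 312 * s ^ 2))) (by rw [ev_cy]; simp only [lev]; push_cast; ring)
    (kpos hy0 hy (b1 hy0 hy) (b1 hy0 hy)) one_pos ?_ one_pos ?_ zero_le_one ?_
  · exact (mul_pos (qv_pos _ _ hs hs1) (qv_pos _ _ hs hs1))
  · exact (mul_nonneg (qv_nonneg _ _) (qv_nonneg _ _))
  · have h1 : 0 < 1 - s ^ 2 := by linarith
    positivity

theorem s13 (s : ℝ) (hs : 0 < s) (hs1 : s < 1) (be : ℝ) (hb : 0 < be) (hb1 : be ≤ 1) :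
    StepOK (xs s) 1 (dls s (-s ^ 2) (-((s ^ 2) ^ 3 * be))) (ets s (-s ^ 2) (-((s ^ 2) ^ 3 * be)))
      (((qv s (0 / 1000) * qv s (2616 / 1000)) * 1) / ((qv s (350 / 1000) * qv s (2187 / 1000)) * 1)) := by
  have hy0 : (0 : ℝ) < s ^ 2 := by positivity
  have hy : s ^ 2 < 1 := by nlinarith
  refine gen 100 A1 B3 (pcst 1) _ _ (pcst 1) (pcst 1) _ _ cov3 ok13 0 1 be s (by norm_num)
    le_rfl one_pos le_rfl hb hb1 hs hs1 (ev_A1 _ _ _ _) (ev_B3 _ _ _ _)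
    (by rw [ev_pcst]; norm_num)
    (TN' := (qv s (0 / 1000) * qv s (2616 / 1000))) (by rw [ev_mul, ev_fc _ _ _ _ hs, ev_fc _ _ _ _ hs]; push_cast; try ring)
    (TM' := (qv s (350 / 1000) * qv s (2187 / 1000))) (by rw [ev_mul, ev_fc _ _ _ _ hs, ev_fc _ _ _ _ hs]; push_cast; try ring)
    (by rw [ev_pcst]; norm_num) (by rw [ev_pcst]; norm_num)
    (mu' := ((1 - s ^ 2) * (9 + 273 * s ^ 2 + (71) * (s ^ 2) ^ 2))) (by rw [ev_cy]; simp only [lev]; push_cast; ring)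
    (kpos hy0 hy (b1 hy0 hy) (b3 3 hy0 hy hb hb1)) one_pos ?_ one_pos ?_ zero_le_one ?_
  · exact (mul_pos (qv_pos _ _ hs hs1) (qv_pos _ _ hs hs1))
  · exact (mul_nonneg (qv_nonneg _ _) (qv_nonneg _ _))
  · have h1 : 0 < 1 - s ^ 2 := by linarith
    positivity

theorem s33 (s : ℝ) (hs : 0 < s) (hs1 : s < 1) (al : ℝ) (ha : 0 < al) (ha1 : al ≤ 1) (be : ℝ) (hb : 0 < be) (hb1 : be ≤ 1) :
    StepOK (xs s) 1 (dls s (-((s ^ 2) ^ 3 * al)) (-((s ^ 2) ^ 3 * be))) (ets s (-((s ^ 2) ^ 3 * al)) (-((s ^ 2) ^ 3 * be)))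
      (((qv s (0 / 1000) * qv s (1133 / 1000) * qv s (2450 / 1000)) * 1) / ((qv s (275 / 1000) * qv s (1438 / 1000) * qv s (1806 / 1000)) * 1)) := by
  have hy0 : (0 : ℝ) < s ^ 2 := by positivity
  have hy : s ^ 2 < 1 := by nlinarith
  refine gen 100 A3 B3 (pcst 1) _ _ (pcst 1) (pcst 1) _ _ cov2 ok33 0 al be s (by norm_num)
    le_rfl ha ha1 hb hb1 hs hs1 (ev_A3 _ _ _ _) (ev_B3 _ _ _ _)
    (by rw [ev_pcst]; norm_num)
    (TN' := (qv s (0 / 1000) * qv s (1133 / 1000) * qv s (2450 / 1000))) (by rw [ev_mul, ev_mul, ev_fc _ _ _ _ hs, ev_fc _ _ _ _ hs, ev_fc _ _ _ _ hs]; push_cast; try ring)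
    (TM' := (qv s (275 / 1000) * qv s (1438 / 1000) * qv s (1806 / 1000))) (by rw [ev_mul, ev_mul, ev_fc _ _ _ _ hs, ev_fc _ _ _ _ hs, ev_fc _ _ _ _ hs]; push_cast; try ring)
    (by rw [ev_pcst]; norm_num) (by rw [ev_pcst]; norm_num)
    (mu' := ((1 - s ^ 2) * (4 + 344 * s ^ 2))) (by rw [ev_cy]; simp only [lev]; push_cast; ring)
    (kpos hy0 hy (b3 3 hy0 hy ha ha1) (b3 3 hy0 hy hb hb1)) one_pos ?_ one_pos ?_ zero_le_one ?_
  · exact (mul_pos (mul_pos (qv_pos _ _ hs hs1) (qv_pos _ _ hs hs1)) (qv_pos _ _ hs hs1))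
  · exact (mul_nonneg (mul_nonneg (qv_nonneg _ _) (qv_nonneg _ _)) (qv_nonneg _ _))
  · have h1 : 0 < 1 - s ^ 2 := by linarith
    positivity

theorem see (s : ℝ) (hs : 0 < s) (hs1 : s < 1) (al : ℝ) (ha : 0 < al) (ha1 : al ≤ 1) (be : ℝ) (hb : 0 < be) (hb1 : be ≤ 1) :
    StepOK (xs s) 1 (dls s ((s ^ 2) ^ 2 * al) ((s ^ 2) ^ 2 * be)) (ets s ((s ^ 2) ^ 2 * al) ((s ^ 2) ^ 2 * be))
      (((qv s (190 / 1000) * qv s (2655 / 1000)) * 1) / ((qv s (554 / 1000) * qv s (2202 / 1000)) * 1)) := by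
  have hy0 : (0 : ℝ) < s ^ 2 := by positivity
  have hy : s ^ 2 < 1 := by nlinarith
  refine gen 100 A2 B2 (pcst 1) _ _ (pcst 1) (pcst 1) _ _ cov3 okee 0 al be s (by norm_num)
    le_rfl ha ha1 hb hb1 hs hs1 (ev_A2 _ _ _ _) (ev_B2 _ _ _ _)
    (by rw [ev_pcst]; norm_num)
    (TN' := (qv s (190 / 1000) * qv s (2655 / 1000))) (by rw [ev_mul, ev_fc _ _ _ _ hs, ev_fc _ _ _ _ hs]; push_cast; try ring)
    (TM' := (qv s (554 / 1000) * qv s (2202 / 1000))) (by rw [ev_mul, ev_fc _ _ _ _ hs, ev_fc _ _ _ _ hs]; push_cast; try ring)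
    (by rw [ev_pcst]; norm_num) (by rw [ev_pcst]; norm_num)
    (mu' := (10 + 243 * s ^ 2 + (-213) * (s ^ 2) ^ 2)) (by rw [ev_cy]; simp only [lev]; push_cast; ring)
    (kpos hy0 hy (b2 2 hy0 hy ha ha1) (b2 2 hy0 hy hb hb1)) one_pos ?_ one_pos ?_ zero_le_one ?_
  · exact (mul_pos (qv_pos _ _ hs hs1) (qv_pos _ _ hs hs1))
  · exact (mul_nonneg (qv_nonneg _ _) (qv_nonneg _ _))
  · have h1 : 0 < 1 - s ^ 2 := by linarith
    nlinarith [mul_pos hy0 h1]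

theorem seo (s : ℝ) (hs : 0 < s) (hs1 : s < 1) (al : ℝ) (ha : 0 < al) (ha1 : al ≤ 1) (be : ℝ) (hb : 0 < be) (hb1 : be ≤ 1) :
    StepOK (xs s) 1 (dls s ((s ^ 2) ^ 2 * al) (-(s ^ 2 * be))) (ets s ((s ^ 2) ^ 2 * al) (-(s ^ 2 * be)))
      (((qv s (190 / 1000) * qv s (2655 / 1000)) * 1) / ((qv s (554 / 1000) * qv s (2202 / 1000)) * 1)) := by
  have hy0 : (0 : ℝ) < s ^ 2 := by positivity
  have hy : s ^ 2 < 1 := by nlinarith
  refine gen 100 A2 B1 (pcst 1) _ _ (pcst 1) (pcst 1) _ _ cov3 okeo 0 al be s (by norm_num)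
    le_rfl ha ha1 hb hb1 hs hs1 (ev_A2 _ _ _ _) (ev_B1 _ _ _ _)
    (by rw [ev_pcst]; norm_num)
    (TN' := (qv s (190 / 1000) * qv s (2655 / 1000))) (by rw [ev_mul, ev_fc _ _ _ _ hs, ev_fc _ _ _ _ hs]; push_cast; try ring)
    (TM' := (qv s (554 / 1000) * qv s (2202 / 1000))) (by rw [ev_mul, ev_fc _ _ _ _ hs, ev_fc _ _ _ _ hs]; push_cast; try ring)
    (by rw [ev_pcst]; norm_num) (by rw [ev_pcst]; norm_num)
    (mu' := (10 + 243 * s ^ 2 + (-213) * (s ^ 2) ^ 2)) (by rw [ev_cy]; simp only [lev]; push_cast; ring)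
    (kpos hy0 hy (b2 2 hy0 hy ha ha1) (by simpa using b3 1 hy0 hy hb hb1)) one_pos ?_ one_pos ?_ zero_le_one ?_
  · exact (mul_pos (qv_pos _ _ hs hs1) (qv_pos _ _ hs hs1))
  · exact (mul_nonneg (qv_nonneg _ _) (qv_nonneg _ _))
  · have h1 : 0 < 1 - s ^ 2 := by linarith
    nlinarith [mul_pos hy0 h1]

end Pool.W39.LE.PC
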