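import Pool.Agent.W39.LE.SG
import Pool.Agent.W39.LE.Stm
import Pool.Agent.W39.LE.S1
import Pool.Agent.W39.LE.T.C11D
import Pool.Agent.W39.LE.T.C13D
import Pool.Agent.W39.LE.T.C33D
import Pool.Agent.W39.LE.T.CeeD
import Pool.Agent.W39.LE.T.CeoD

set_option autoImplicit false

namespace Pool.W39.LE.PC

open Pool.W39.LE Rg
theorem s11D (s : ℝ) (hs : 0 < s) (hs1 : s < 1) (e : ℝ) (he : 0 ≤ e) :
    StepOK (xs s) (2 + e) (dls s (-s ^ 2) (-s ^ 2)) (ets s (-s ^ 2) (-s ^ 2))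
      (((qv s (0 / 1000) * qv s (3300 / 1000)) * qv s (3270 / 1000 + e)) / ((qv s (530 / 1000) * qv s (3490 / 1000)) * qv s (2315 / 1000 + e))) := by
  have hy0 : (0 : ℝ) < s ^ 2 := by positivity
  have hy : s ^ 2 < 1 := by nlinarith
  refine gen 100 A1 A1 (add (pcst 2) ve) _ _ _ _ _ _ cov2 ok11D e 1 1 s (by norm_num)
    he one_pos le_rfl one_pos le_rfl hs hs1 (ev_A1 _ _ _ _) (ev_A1 _ _ _ _)
    (ev_2e _ _ _ _)
    (TN' := (qv s (0 / 1000) * qv s (3300 / 1000))) (by rw [ev_mul, ev_fc _ _ _ _ hs, ev_fc _ _ _ _ hs]; push_cast; try ring)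
    (TM' := (qv s (530 / 1000) * qv s (3490 / 1000))) (by rw [ev_mul, ev_fc _ _ _ _ hs, ev_fc _ _ _ _ hs]; push_cast; try ring)
    (ND' := qv s (3270 / 1000 + e)) (by rw [ev_fe _ _ _ _ hs]; push_cast; try ring)
    (MD' := qv s (2315 / 1000 + e)) (by rw [ev_fe _ _ _ _ hs]; push_cast; try ring)
    (mu' := ((1 - s ^ 2) * (15 + 181 * s ^ 2))) (by rw [ev_cy]; simp only [lev]; push_cast; ring)
    (kpos hy0 hy (b1 hy0 hy) (b1 hy0 hy)) (by linarith) ?_ (qv_pos _ _ hs hs1) ?_ (qv_nonneg _ _) ?_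
  · exact (mul_pos (qv_pos _ _ hs hs1) (qv_pos _ _ hs hs1))
  · exact (mul_nonneg (qv_nonneg _ _) (qv_nonneg _ _))
  · have h1 : 0 < 1 - s ^ 2 := by linarith
    positivity

theorem s13D (s : ℝ) (hs : 0 < s) (hs1 : s < 1) (e : ℝ) (he : 0 ≤ e) (be : ℝ) (hb : 0 < be) (hb1 : be ≤ 1) :
    StepOK (xs s) (2 + e) (dls s (-s ^ 2) (-((s ^ 2) ^ 3 * be))) (ets s (-s ^ 2) (-((s ^ 2) ^ 3 * be)))
      (((qv s (0 / 1000) * qv s (1330 / 1000)) * qv s (3147 / 1000 + e)) / ((qv s (380 / 1000) * qv s (1645 / 1000)) * qv s (2240 / 1000 + e))) := by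
  have hy0 : (0 : ℝ) < s ^ 2 := by positivity
  have hy : s ^ 2 < 1 := by nlinarith
  refine gen 100 A1 B3 (add (pcst 2) ve) _ _ _ _ _ _ cov1 ok13D e 1 be s (by norm_num)
    he one_pos le_rfl hb hb1 hs hs1 (ev_A1 _ _ _ _) (ev_B3 _ _ _ _)
    (ev_2e _ _ _ _)
    (TN' := (qv s (0 / 1000) * qv s (1330 / 1000))) (by rw [ev_mul, ev_fc _ _ _ _ hs, ev_fc _ _ _ _ hs]; push_cast; try ring)
    (TM' := (qv s (380 / 1000) * qv s (1645 / 1000))) (by rw [ev_mul, ev_fc _ _ _ _ hs, ev_fc _ _ _ _ hs]; push_cast; try ring)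
    (ND' := qv s (3147 / 1000 + e)) (by rw [ev_fe _ _ _ _ hs]; push_cast; try ring)
    (MD' := qv s (2240 / 1000 + e)) (by rw [ev_fe _ _ _ _ hs]; push_cast; try ring)
    (mu' := ((1 - s ^ 2) * (13 + 208 * s ^ 2))) (by rw [ev_cy]; simp only [lev]; push_cast; ring)
    (kpos hy0 hy (b1 hy0 hy) (b3 3 hy0 hy hb hb1)) (by linarith) ?_ (qv_pos _ _ hs hs1) ?_ (qv_nonneg _ _) ?_
  · exact (mul_pos (qv_pos _ _ hs hs1) (qv_pos _ _ hs hs1))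
  · exact (mul_nonneg (qv_nonneg _ _) (qv_nonneg _ _))
  · have h1 : 0 < 1 - s ^ 2 := by linarith
    positivity

theorem s33D (s : ℝ) (hs : 0 < s) (hs1 : s < 1) (e : ℝ) (he : 0 ≤ e) (al : ℝ) (ha : 0 < al) (ha1 : al ≤ 1) (be : ℝ) (hb : 0 < be) (hb1 : be ≤ 1) :
    StepOK (xs s) (2 + e) (dls s (-((s ^ 2) ^ 3 * al)) (-((s ^ 2) ^ 3 * be))) (ets s (-((s ^ 2) ^ 3 * al)) (-((s ^ 2) ^ 3 * be)))
      (((qv s (0 / 1000) * qv s (1037 / 1000)) * qv s (3241 / 1000 + e)) / ((qv s (287 / 1000) * qv s (1430 / 1000)) * qv s (2381 / 1000 + e))) := by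
  have hy0 : (0 : ℝ) < s ^ 2 := by positivity
  have hy : s ^ 2 < 1 := by nlinarith
  refine gen 100 A3 B3 (add (pcst 2) ve) _ _ _ _ _ _ cov1 ok33D e al be s (by norm_num)
    he ha ha1 hb hb1 hs hs1 (ev_A3 _ _ _ _) (ev_B3 _ _ _ _)
    (ev_2e _ _ _ _)
    (TN' := (qv s (0 / 1000) * qv s (1037 / 1000))) (by rw [ev_mul, ev_fc _ _ _ _ hs, ev_fc _ _ _ _ hs]; push_cast; try ring)
    (TM' := (qv s (287 / 1000) * qv s (1430 / 1000))) (by rw [ev_mul, ev_fc _ _ _ _ hs, ev_fc _ _ _ _ hs]; push_cast; try ring)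
    (ND' := qv s (3241 / 1000 + e)) (by rw [ev_fe _ _ _ _ hs]; push_cast; try ring)
    (MD' := qv s (2381 / 1000 + e)) (by rw [ev_fe _ _ _ _ hs]; push_cast; try ring)
    (mu' := ((1 - s ^ 2) * (9 + 229 * s ^ 2))) (by rw [ev_cy]; simp only [lev]; push_cast; ring)
    (kpos hy0 hy (b3 3 hy0 hy ha ha1) (b3 3 hy0 hy hb hb1)) (by linarith) ?_ (qv_pos _ _ hs hs1) ?_ (qv_nonneg _ _) ?_
  · exact (mul_pos (qv_pos _ _ hs hs1) (qv_pos _ _ hs hs1))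
  · exact (mul_nonneg (qv_nonneg _ _) (qv_nonneg _ _))
  · have h1 : 0 < 1 - s ^ 2 := by linarith
    positivity

theorem seeD (s : ℝ) (hs : 0 < s) (hs1 : s < 1) (e : ℝ) (he : 0 ≤ e) (al : ℝ) (ha : 0 < al) (ha1 : al ≤ 1) (be : ℝ) (hb : 0 < be) (hb1 : be ≤ 1) :
    StepOK (xs s) (2 + e) (dls s ((s ^ 2) ^ 2 * al) ((s ^ 2) ^ 2 * be)) (ets s ((s ^ 2) ^ 2 * al) ((s ^ 2) ^ 2 * be))
      (((qv s (71 / 1000) * qv s (695 / 1000)) * qv s (3173 / 1000 + e)) / ((qv s (143 / 1000) * qv s (1262 / 1000)) * qv s (2279 / 1000 + e))) := by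
  have hy0 : (0 : ℝ) < s ^ 2 := by positivity
  have hy : s ^ 2 < 1 := by nlinarith
  refine gen 100 A2 B2 (add (pcst 2) ve) _ _ _ _ _ _ cov4 okeeD e al be s (by norm_num)
    he ha ha1 hb hb1 hs hs1 (ev_A2 _ _ _ _) (ev_B2 _ _ _ _)
    (ev_2e _ _ _ _)
    (TN' := (qv s (71 / 1000) * qv s (695 / 1000))) (by rw [ev_mul, ev_fc _ _ _ _ hs, ev_fc _ _ _ _ hs]; push_cast; try ring)
    (TM' := (qv s (143 / 1000) * qv s (1262 / 1000))) (by rw [ev_mul, ev_fc _ _ _ _ hs, ev_fc _ _ _ _ hs]; push_cast; try ring)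
    (ND' := qv s (3173 / 1000 + e)) (by rw [ev_fe _ _ _ _ hs]; push_cast; try ring)
    (MD' := qv s (2279 / 1000 + e)) (by rw [ev_fe _ _ _ _ hs]; push_cast; try ring)
    (mu' := (14 + 173 * s ^ 2 + (-160) * (s ^ 2) ^ 2)) (by rw [ev_cy]; simp only [lev]; push_cast; ring)
    (kpos hy0 hy (b2 2 hy0 hy ha ha1) (b2 2 hy0 hy hb hb1)) (by linarith) ?_ (qv_pos _ _ hs hs1) ?_ (qv_nonneg _ _) ?_
  · exact (mul_pos (qv_pos _ _ hs hs1) (qv_pos _ _ hs hs1))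
  · exact (mul_nonneg (qv_nonneg _ _) (qv_nonneg _ _))
  · have h1 : 0 < 1 - s ^ 2 := by linarith
    nlinarith [mul_pos hy0 h1]

theorem seoD (s : ℝ) (hs : 0 < s) (hs1 : s < 1) (e : ℝ) (he : 0 ≤ e) (al : ℝ) (ha : 0 < al) (ha1 : al ≤ 1) (be : ℝ) (hb : 0 < be) (hb1 : be ≤ 1) :
    StepOK (xs s) (2 + e) (dls s ((s ^ 2) ^ 2 * al) (-(s ^ 2 * be))) (ets s ((s ^ 2) ^ 2 * al) (-(s ^ 2 * be)))
      (((qv s (71 / 1000) * qv s (695 / 1000)) * qv s (3173 / 1000 + e)) / ((qv s (143 / 1000) * qv s (1262 / 1000)) * qv s (2279 / 1000 + e))) := by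
  have hy0 : (0 : ℝ) < s ^ 2 := by positivity
  have hy : s ^ 2 < 1 := by nlinarith
  refine gen 100 A2 B1 (add (pcst 2) ve) _ _ _ _ _ _ cov4 okeoD e al be s (by norm_num)
    he ha ha1 hb hb1 hs hs1 (ev_A2 _ _ _ _) (ev_B1 _ _ _ _)
    (ev_2e _ _ _ _)
    (TN' := (qv s (71 / 1000) * qv s (695 / 1000))) (by rw [ev_mul, ev_fc _ _ _ _ hs, ev_fc _ _ _ _ hs]; push_cast; try ring)
    (TM' := (qv s (143 / 1000) * qv s (1262 / 1000))) (by rw [ev_mul, ev_fc _ _ _ _ hs, ev_fc _ _ _ _ hs]; push_cast; try ring)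
    (ND' := qv s (3173 / 1000 + e)) (by rw [ev_fe _ _ _ _ hs]; push_cast; try ring)
    (MD' := qv s (2279 / 1000 + e)) (by rw [ev_fe _ _ _ _ hs]; push_cast; try ring)
    (mu' := (14 + 173 * s ^ 2 + (-160) * (s ^ 2) ^ 2)) (by rw [ev_cy]; simp only [lev]; push_cast; ring)
    (kpos hy0 hy (b2 2 hy0 hy ha ha1) (by simpa using b3 1 hy0 hy hb hb1)) (by linarith) ?_ (qv_pos _ _ hs hs1) ?_ (qv_nonneg _ _) ?_
  · exact (mul_pos (qv_pos _ _ hs hs1) (qv_pos _ _ hs hs1))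
  · exact (mul_nonneg (qv_nonneg _ _) (qv_nonneg _ _))
  · have h1 : 0 < 1 - s ^ 2 := by linarith
    nlinarith [mul_pos hy0 h1]

end Pool.W39.LE.PC
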