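import Pool.Agent.W39.LE.S2

set_option autoImplicit false

namespace Pool.W39.LE.PC

open Pool.W39.LE Rg

theorem xs_pos {s : ℝ} (hs : 0 < s) (hs1 : s < 1) : 0 < xs s := by
  unfold xs
  apply div_pos _ hs
  nlinarith

theorem pe {s : ℝ} {a : ℕ} (h : a % 2 = 0) (h2 : 2 ≤ a) :
    (-s ^ 2) ^ a = (s ^ 2) ^ 2 * (s ^ 2) ^ (a - 2) := by
  have he : Even a := Nat.even_iff.mpr h
  rw [he.neg_pow, ← pow_add]
  congr 1; omega

theorem po1 {s : ℝ} {a : ℕ} (h : a % 2 = 1) : (-s ^ 2) ^ a = -(s ^ 2 * (s ^ 2) ^ (a - 1)) := by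
  have he : Odd a := Nat.odd_iff.mpr h
  rw [he.neg_pow, ← pow_succ']
  congr 2; omega

theorem po3 {s : ℝ} {a : ℕ} (h : a % 2 = 1) (h3 : 3 ≤ a) :
    (-s ^ 2) ^ a = -((s ^ 2) ^ 3 * (s ^ 2) ^ (a - 3)) := by
  have he : Odd a := Nat.odd_iff.mpr h
  rw [he.neg_pow, ← pow_add]
  congr 2; omega

theorem frac2 {s : ℝ} (hs : 0 < s) (p1 p2 q1 q2 : ℝ) :
    (qv s p1 * qv s p2 * 1) / (qv s q1 * qv s q2 * 1) = PR [p1, p2] (xs s) / PR [q1, q2] (xs s) := by
  have hC : (1000000 * s ^ 2) ^ 2 ≠ 0 := by positivity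
  have h1 : qv s p1 * qv s p2 * 1 = (1000000 * s ^ 2) ^ 2 * PR [p1, p2] (xs s) := by
    simp only [PR, qv, List.map, List.prod_cons, List.prod_nil]; ring
  have h2 : qv s q1 * qv s q2 * 1 = (1000000 * s ^ 2) ^ 2 * PR [q1, q2] (xs s) := by
    simp only [PR, qv, List.map, List.prod_cons, List.prod_nil]; ring
  rw [h1, h2, mul_div_mul_left _ _ hC]

theorem frac3 {s : ℝ} (hs : 0 < s) (p1 p2 p3 q1 q2 q3 : ℝ) :
    (qv s p1 * qv s p2 * qv s p3) / (qv s q1 * qv s q2 * qv s q3) =
      PR [p1, p2, p3] (xs s) / PR [q1, q2, q3] (xs s) := by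
  have hC : (1000000 * s ^ 2) ^ 3 ≠ 0 := by positivity
  have h1 : qv s p1 * qv s p2 * qv s p3 = (1000000 * s ^ 2) ^ 3 * PR [p1, p2, p3] (xs s) := by
    simp only [PR, qv, List.map, List.prod_cons, List.prod_nil]; ring
  have h2 : qv s q1 * qv s q2 * qv s q3 = (1000000 * s ^ 2) ^ 3 * PR [q1, q2, q3] (xs s) := by
    simp only [PR, qv, List.map, List.prod_cons, List.prod_nil]; ring
  rw [h1, h2, mul_div_mul_left _ _ hC]

theorem vpos {s : ℝ} (hs : 0 < s) (k : ℕ) : 0 < (s ^ 2) ^ k := by positivity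

theorem vle {s : ℝ} (hs : 0 < s) (hs1 : s < 1) (k : ℕ) : (s ^ 2) ^ k ≤ 1 :=
  pow_le_one₀ (by positivity) (by nlinarith)

theorem step1 : S_STEP1 := by
  intro a b ha hb
  rcases Nat.mod_two_eq_zero_or_one a with ea | oa
  · -- `a` even
    have ha2 : 2 ≤ a := by omega
    refine ⟨[190 / 1000, 2655 / 1000], [554 / 1000, 2202 / 1000], ?_, ?_⟩
    · refine ⟨rfl, ?_, ?_, ?_⟩
      · simp; norm_num
      · simp; norm_num
      · have : d1 a b = 89 := by simp [d1, ea]
        rw [this]; norm_num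
    · intro s hs hs1
      rw [← frac2 hs]
      rcases Nat.mod_two_eq_zero_or_one b with eb | ob
      · have hb2 : 2 ≤ b := by omega
        rw [pe ea ha2, pe eb hb2]
        exact see s hs hs1 _ (vpos hs _) (vle hs hs1 _) _ (vpos hs _) (vle hs hs1 _)
      · rw [pe ea ha2, po1 ob]
        exact seo s hs hs1 _ (vpos hs _) (vle hs hs1 _) _ (vpos hs _) (vle hs hs1 _)
  rcases Nat.mod_two_eq_zero_or_one b with eb | ob
  · have hb2 : 2 ≤ b := by omega
    refine ⟨[190 / 1000, 2655 / 1000], [554 / 1000, 2202 / 1000], ?_, ?_⟩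
    · refine ⟨rfl, ?_, ?_, ?_⟩
      · simp; norm_num
      · simp; norm_num
      · have : d1 a b = 89 := by simp [d1, eb]
        rw [this]; norm_num
    · intro s hs hs1
      rw [← frac2 hs, dls_comm, ets_comm, pe eb hb2, po1 oa]
      exact seo s hs hs1 _ (vpos hs _) (vle hs hs1 _) _ (vpos hs _) (vle hs hs1 _)
  -- both odd
  rcases Nat.lt_or_ge a 3 with a3 | a3
  · have a1 : a = 1 := by omega
    subst a1
    rcases Nat.lt_or_ge b 3 with b3 | b3
    · have b1 : b = 1 := by omega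
      subst b1
      refine ⟨[0, 2085 / 1000], [465 / 1000, 1510 / 1000], ?_, ?_⟩
      · refine ⟨rfl, ?_, ?_, ?_⟩
        · simp; norm_num
        · simp; norm_num
        · have : d1 1 1 = 110 := by simp [d1]
          rw [this]; norm_num
      · intro s hs hs1
        rw [← frac2 hs, pow_one]
        have h := s11 s hs hs1
        rw [zero_div] at h
        exact h
    · refine ⟨[0, 2616 / 1000], [350 / 1000, 2187 / 1000], ?_, ?_⟩
      · refine ⟨rfl, ?_, ?_, ?_⟩
        · simp; norm_num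
        · simp; norm_num
        · have : d1 1 b = 79 := by
            have h1 : b ≠ 1 := by omega
            simp [d1, ob, h1]
          rw [this]; norm_num
      · intro s hs hs1
        rw [← frac2 hs, pow_one, po3 ob b3]
        have h := s13 s hs hs1 ((s ^ 2) ^ (b - 3)) (vpos hs _) (vle hs hs1 _)
        rw [zero_div] at h
        exact h
  · rcases Nat.lt_or_ge b 3 with b3 | b3
    · have b1 : b = 1 := by omega
      subst b1
      refine ⟨[0, 2616 / 1000], [350 / 1000, 2187 / 1000], ?_, ?_⟩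
      · refine ⟨rfl, ?_, ?_, ?_⟩
        · simp; norm_num
        · simp; norm_num
        · have : d1 a 1 = 79 := by
            have h1 : a ≠ 1 := by omega
            simp [d1, oa, h1]
          rw [this]; norm_num
      · intro s hs hs1
        rw [← frac2 hs, pow_one, dls_comm, ets_comm, po3 oa a3]
        have h := s13 s hs hs1 ((s ^ 2) ^ (a - 3)) (vpos hs _) (vle hs hs1 _)
        rw [zero_div] at h
        exact h
    · refine ⟨[0, 1133 / 1000, 2450 / 1000], [275 / 1000, 1438 / 1000, 1806 / 1000], ?_, ?_⟩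
      · refine ⟨rfl, ?_, ?_, ?_⟩
        · simp; norm_num
        · simp; norm_num
        · have : d1 a b = 64 := by
            have h1 : a ≠ 1 := by omega
            have h2 : b ≠ 1 := by omega
            simp [d1, oa, ob, h1, h2]
          rw [this]; norm_num
      · intro s hs hs1
        rw [← frac3 hs, po3 oa a3, po3 ob b3]
        have h := s33 s hs hs1 ((s ^ 2) ^ (a - 3)) (vpos hs _) (vle hs hs1 _)
          ((s ^ 2) ^ (b - 3)) (vpos hs _) (vle hs hs1 _)
        rw [zero_div, mul_one, mul_one] at h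
        exact h


/-- the lists of the family -/
theorem pq2 (e g t1 t2 : ℝ) (he : 0 ≤ e) (p1 p2 q1 q2 : ℝ) (h1 : 0 ≤ p1) (h2 : 0 ≤ p2)
    (h3 : 0 ≤ q1) (h4 : 0 ≤ q2) (h5 : 0 ≤ t1) (h6 : 0 ≤ t2)
    (hg : g ≤ p1 + p2 + t1 - (q1 + q2 + t2)) :
    PQ [p1, p2, t1 + e] [q1, q2, t2 + e] g := by
  refine ⟨rfl, ?_, ?_, ?_⟩
  · intro p hp
    simp only [List.mem_cons, List.not_mem_nil, or_false] at hp
    rcases hp with h | h | h <;> rw [h] <;> positivity
  · intro p hp
    simp only [List.mem_cons, List.not_mem_nil, or_false] at hp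
    rcases hp with h | h | h <;> rw [h] <;> positivity
  · simp only [List.sum_cons, List.sum_nil]
    linarith

theorem step2 : S_STEP2 := by
  intro a b D ha hb hD
  obtain ⟨e, hDe⟩ : ∃ e : ℝ, (D : ℝ) = 2 + e := ⟨(D : ℝ) - 2, by ring⟩
  have he : 0 ≤ e := by
    have : (2 : ℝ) ≤ D := by exact_mod_cast hD
    linarith
  rw [hDe]
  rcases Nat.mod_two_eq_zero_or_one a with ea | oa
  · -- `a` even
    have ha2 : 2 ≤ a := by omega
    have hg : d2 a b = 255 := by simp [d2, ea]
    rw [hg]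
    refine ⟨[71 / 1000, 695 / 1000, 3173 / 1000 + e], [143 / 1000, 1262 / 1000, 2279 / 1000 + e],
      pq2 e _ _ _ he _ _ _ _ (by norm_num) (by norm_num) (by norm_num) (by norm_num) (by norm_num)
        (by norm_num) (by norm_num), ?_⟩
    intro s hs hs1
    rw [← frac3 hs]
    rcases Nat.mod_two_eq_zero_or_one b with eb | ob
    · have hb2 : 2 ≤ b := by omega
      rw [pe ea ha2, pe eb hb2]
      exact seeD s hs hs1 e he _ (vpos hs _) (vle hs hs1 _) _ (vpos hs _) (vle hs hs1 _)
    · rw [pe ea ha2, po1 ob]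
      exact seoD s hs hs1 e he _ (vpos hs _) (vle hs hs1 _) _ (vpos hs _) (vle hs hs1 _)
  rcases Nat.mod_two_eq_zero_or_one b with eb | ob
  · have hb2 : 2 ≤ b := by omega
    have hg : d2 a b = 255 := by simp [d2, eb]
    rw [hg]
    refine ⟨[71 / 1000, 695 / 1000, 3173 / 1000 + e], [143 / 1000, 1262 / 1000, 2279 / 1000 + e],
      pq2 e _ _ _ he _ _ _ _ (by norm_num) (by norm_num) (by norm_num) (by norm_num) (by norm_num)
        (by norm_num) (by norm_num), ?_⟩
    intro s hs hs1
    rw [← frac3 hs, dls_comm, ets_comm, pe eb hb2, po1 oa]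
    exact seoD s hs hs1 e he _ (vpos hs _) (vle hs hs1 _) _ (vpos hs _) (vle hs hs1 _)
  -- both odd
  rcases Nat.lt_or_ge a 3 with a3 | a3
  · have a1 : a = 1 := by omega
    subst a1
    rcases Nat.lt_or_ge b 3 with b3 | b3
    · have b1 : b = 1 := by omega
      subst b1
      have hg : d2 1 1 = 235 := by simp [d2]
      rw [hg]
      refine ⟨[0, 3300 / 1000, 3270 / 1000 + e], [530 / 1000, 3490 / 1000, 2315 / 1000 + e],
        pq2 e _ _ _ he _ _ _ _ (by norm_num) (by norm_num) (by norm_num) (by norm_num)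
          (by norm_num) (by norm_num) (by norm_num), ?_⟩
      intro s hs hs1
      rw [← frac3 hs, pow_one]
      have h := s11D s hs hs1 e he
      rw [zero_div] at h
      exact h
    · have hg : d2 1 b = 212 := by
        have h1 : b ≠ 1 := by omega
        simp [d2, ob, h1]
      rw [hg]
      refine ⟨[0, 1330 / 1000, 3147 / 1000 + e], [380 / 1000, 1645 / 1000, 2240 / 1000 + e],
        pq2 e _ _ _ he _ _ _ _ (by norm_num) (by norm_num) (by norm_num) (by norm_num)
          (by norm_num) (by norm_num) (by norm_num), ?_⟩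
      intro s hs hs1
      rw [← frac3 hs, pow_one, po3 ob b3]
      have h := s13D s hs hs1 e he ((s ^ 2) ^ (b - 3)) (vpos hs _) (vle hs hs1 _)
      rw [zero_div] at h
      exact h
  · rcases Nat.lt_or_ge b 3 with b3 | b3
    · have b1 : b = 1 := by omega
      subst b1
      have hg : d2 a 1 = 212 := by
        have h1 : a ≠ 1 := by omega
        simp [d2, oa, h1]
      rw [hg]
      refine ⟨[0, 1330 / 1000, 3147 / 1000 + e], [380 / 1000, 1645 / 1000, 2240 / 1000 + e],
        pq2 e _ _ _ he _ _ _ _ (by norm_num) (by norm_num) (by norm_num) (by norm_num)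
          (by norm_num) (by norm_num) (by norm_num), ?_⟩
      intro s hs hs1
      rw [← frac3 hs, pow_one, dls_comm, ets_comm, po3 oa a3]
      have h := s13D s hs hs1 e he ((s ^ 2) ^ (a - 3)) (vpos hs _) (vle hs hs1 _)
      rw [zero_div] at h
      exact h
    · have hg : d2 a b = 180 := by
        have h1 : a ≠ 1 := by omega
        have h2 : b ≠ 1 := by omega
        simp [d2, oa, ob, h1, h2]
      rw [hg]
      refine ⟨[0, 1037 / 1000, 3241 / 1000 + e], [287 / 1000, 1430 / 1000, 2381 / 1000 + e],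
        pq2 e _ _ _ he _ _ _ _ (by norm_num) (by norm_num) (by norm_num) (by norm_num)
          (by norm_num) (by norm_num) (by norm_num), ?_⟩
      intro s hs hs1
      rw [← frac3 hs, po3 oa a3, po3 ob b3]
      have h := s33D s hs hs1 e he ((s ^ 2) ^ (a - 3)) (vpos hs _) (vle hs hs1 _)
        ((s ^ 2) ^ (b - 3)) (vpos hs _) (vle hs hs1 _)
      rw [zero_div] at h
      exact h

end Pool.W39.LE.PC
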