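import Pool.Agent.W39.LE.PF

set_option autoImplicit false

namespace Pool.W39.LE.PC

open Pool.W39.LE Rg

def Cov (ivs : List (ℤ × ℤ × ℤ)) : Prop :=
  ∀ y : ℝ, 0 < y → y < 1 →
    ∃ p ∈ ivs, (0 : ℝ) < p.2.2 ∧ (p.1 : ℝ) ≤ p.2.2 * y ∧ p.2.2 * y < p.2.1

theorem cov1 : Cov [(0, 1, 2), (1, 2, 2)] := by
  intro y h0 h1
  rcases lt_or_ge (2 * y) 1 with h | h
  · exact ⟨(0, 1, 2), by simp, by norm_num, by norm_num; linarith, by push_cast; linarith⟩
  · exact ⟨(1, 2, 2), by simp, by norm_num, by push_cast; linarith, by push_cast; linarith⟩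

theorem cov2 : Cov [(0, 1, 4), (1, 2, 4), (1, 2, 2)] := by
  intro y h0 h1
  rcases lt_or_ge (4 * y) 1 with h | h
  · exact ⟨(0, 1, 4), by simp, by norm_num, by norm_num; linarith, by push_cast; linarith⟩
  rcases lt_or_ge (4 * y) 2 with h' | h'
  · exact ⟨(1, 2, 4), by simp, by norm_num, by push_cast; linarith, by push_cast; linarith⟩
  · exact ⟨(1, 2, 2), by simp, by norm_num, by push_cast; linarith, by push_cast; linarith⟩

theorem cov3 : Cov [(0, 1, 8), (1, 2, 8), (1, 2, 4), (1, 2, 2)] := by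
  intro y h0 h1
  rcases lt_or_ge (8 * y) 1 with h | h
  · exact ⟨(0, 1, 8), by simp, by norm_num, by norm_num; linarith, by push_cast; linarith⟩
  rcases lt_or_ge (8 * y) 2 with h' | h'
  · exact ⟨(1, 2, 8), by simp, by norm_num, by push_cast; linarith, by push_cast; linarith⟩
  rcases lt_or_ge (4 * y) 2 with h' | h'
  · exact ⟨(1, 2, 4), by simp, by norm_num, by push_cast; linarith, by push_cast; linarith⟩
  · exact ⟨(1, 2, 2), by simp, by norm_num, by push_cast; linarith, by push_cast; linarith⟩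

theorem cov4 : Cov [(0, 1, 2), (2, 3, 4), (3, 4, 4)] := by
  intro y h0 h1
  rcases lt_or_ge (2 * y) 1 with h | h
  · exact ⟨(0, 1, 2), by simp, by norm_num, by norm_num; linarith, by push_cast; linarith⟩
  rcases lt_or_ge (4 * y) 3 with h' | h'
  · exact ⟨(2, 3, 4), by simp, by norm_num, by push_cast; linarith, by push_cast; linarith⟩
  · exact ⟨(3, 4, 4), by simp, by norm_num, by push_cast; linarith, by push_cast; linarith⟩

theorem ev_pcst (e al be y : ℝ) (n : ℤ) : ev4 e al be y (pcst n) = n := (hom4 e al be y).ofInt n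

theorem ev_add (e al be y : ℝ) (a b : R4) :
    ev4 e al be y (add a b) = ev4 e al be y a + ev4 e al be y b := (hom4 e al be y).add a b

theorem ev_mul (e al be y : ℝ) (a b : R4) :
    ev4 e al be y (mul a b) = ev4 e al be y a * ev4 e al be y b := (hom4 e al be y).mul a b

/-- value of a quadratic factor -/
noncomputable def qv (s p : ℝ) : ℝ := 1000000 * s ^ 2 * ((xs s) ^ 2 + p ^ 2)

theorem ev_fc (e al be s : ℝ) (hs : 0 < s) (k : ℤ) :
    ev4 e al be (s ^ 2) (fc k) = qv s (k / 1000) := by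
  rw [fc, ev_cy]
  simp only [lev, qv, xs]
  push_cast
  field_simp
  ring

theorem ev_fe (e al be s : ℝ) (hs : 0 < s) (k : ℤ) :
    ev4 e al be (s ^ 2) (fe k) = qv s (k / 1000 + e) := by
  rw [fe, ev_add, ev_mul, ev_mul, ev_add, ev_mul, ev_cy, ev_vy, ev_pcst, ev_pcst, ev_ve]
  simp only [lev, qv, xs]
  push_cast
  field_simp
  ring

theorem qv_nonneg (s p : ℝ) : 0 ≤ qv s p := by unfold qv; positivity

theorem qv_pos (s p : ℝ) (hs : 0 < s) (hs1 : s < 1) : 0 < qv s p := by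
  unfold qv
  have : 0 < xs s := by
    unfold xs
    apply div_pos _ hs
    nlinarith
  positivity

theorem gen (c : ℤ) (Ap Bp Dp TN TM ND MD mu : R4) (ivs : List (ℤ × ℤ × ℤ)) (hcov : Cov ivs)
    (h : ok4 ivs (FF c vy Ap Bp Dp TN TM ND MD mu) = true) (e al be s : ℝ) (hc : 0 < c)
    (he : 0 ≤ e) (ha : 0 < al) (ha1 : al ≤ 1) (hb : 0 < be) (hb1 : be ≤ 1)
    (hs : 0 < s) (hs1 : s < 1) {A B D TN' TM' ND' MD' mu' : ℝ}
    (hA : ev4 e al be (s ^ 2) Ap = A) (hB : ev4 e al be (s ^ 2) Bp = B)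
    (hD : ev4 e al be (s ^ 2) Dp = D) (hTN : ev4 e al be (s ^ 2) TN = TN')
    (hTM : ev4 e al be (s ^ 2) TM = TM') (hND : ev4 e al be (s ^ 2) ND = ND')
    (hMD : ev4 e al be (s ^ 2) MD = MD') (hmu : ev4 e al be (s ^ 2) mu = mu')
    (hK : 0 < 1 + s ^ 2 * (A * B)) (hD0 : 0 < D) (hTM0 : 0 < TM') (hMD0 : 0 < MD')
    (hTN0 : 0 ≤ TN') (hND0 : 0 ≤ ND') (hmu0 : 0 < mu') :
    StepOK (xs s) D (dls s A B) (ets s A B) ((TN' * ND') / (TM' * MD')) := by
  have hy0 : (0 : ℝ) < s ^ 2 := by positivity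
  have hy1 : s ^ 2 < 1 := by nlinarith
  have h1 := ok4_spec h he ha ha1 hb hb1 hy0 hy1 (hcov (s ^ 2) hy0 hy1)
  rw [FF_hom (hom4 e al be (s ^ 2)), ev_vy, hA, hB, hD, hTN, hTM, hND, hMD, hmu] at h1
  exact step_of_FF c s A B D TN' TM' ND' MD' mu' hc hs hs1 hK hD0 hTM0 hMD0 hTN0 hND0 hmu0 h1

theorem dls_comm (s A B : ℝ) : dls s A B = dls s B A := by
  unfold dls; rw [mul_comm (1 - A), mul_comm A B]

theorem ets_comm (s A B : ℝ) : ets s A B = ets s B A := by
  unfold ets; rw [mul_comm A B]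

end Pool.W39.LE.PC
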